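import Pool.Agent.N915.WT.Dft

/-! # The sum of the main coefficients does not vanish -/

set_option autoImplicit false

namespace Pool.Agent.N915.WT

open Finset Filter Topology
open Pool.Agent.H534R3.UDist Pool.Agent.H534R3.Rota
open scoped Real

lemma int_of_integral (q : ℚ) (h : IsIntegral ℤ (q : ℂ)) : ∃ m : ℤ, (m : ℚ) = q := by
  have h1 : IsIntegral ℤ q := by
    have h2 : IsIntegral ℤ (algebraMap ℚ ℂ q) := by simpa using h
    exact (isIntegral_algebraMap_iff (algebraMap ℚ ℂ).injective).1 h2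
  obtain ⟨m, hm⟩ := IsIntegrallyClosed.isIntegral_iff.1 h1
  exact ⟨m, by simpa using hm⟩

lemma integral_root {x : ℂ} {n : ℕ} (hn : 0 < n) (h : x ^ n = 1) : IsIntegral ℤ x := by
  apply IsIntegral.of_pow hn
  rw [h]
  exact isIntegral_one

lemma integral_ee {B : ℕ} (hB : 0 < B) (m : ℤ) : IsIntegral ℤ (ee ((m : ℝ) / B)) := by
  apply integral_root hB
  rw [← ee_nat_mul]
  have : (B : ℝ) * ((m : ℝ) / B) = m := by
    have : (B : ℝ) ≠ 0 := by positivity
    field_simp
  rw [this, ee_int]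

lemma not_integral_three {b : ℕ} (hb : 3 ≤ b) {ω η : ℂ} (h1 : ω ^ b = 1) (h2 : ω ≠ 1)
    (hη : IsIntegral ℤ η) (h : 1 - ω = b * η) : False := by
  have hω : IsIntegral ℤ ω := integral_root (by omega) h1
  set d := orderOf ω with hd
  have hd0 : 0 < d := orderOf_pos_iff.2 (isOfFinOrder_iff_pow_eq_one.2 ⟨b, by omega, h1⟩)
  have hdb : d ∣ b := orderOf_dvd_of_pow_eq_one h1
  have hd1 : d ≠ 1 := by
    intro h3
    exact h2 (orderOf_eq_one_iff.1 h3)
  obtain ⟨e, he⟩ : ∃ e, d = e + 1 := ⟨d - 1, by omega⟩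
  have hp : IsPrimitiveRoot ω (e + 1) := by
    rw [← he, hd]
    exact IsPrimitiveRoot.orderOf ω
  have hprod := hp.prod_one_sub_pow_eq_order
  have h3 : ∀ k : ℕ, ∃ ξ : ℂ, IsIntegral ℤ ξ ∧ 1 - ω ^ (k + 1) = b * ξ := by
    intro k
    refine ⟨η * ∑ i ∈ range (k + 1), ω ^ i, hη.mul (IsIntegral.sum _ fun i _ => hω.pow i), ?_⟩
    have h4 := mul_neg_geom_sum ω (k + 1)
    rw [← mul_assoc, ← h, h4]
  choose ξ hξ1 hξ2 using h3
  rw [prod_congr rfl fun k _ => hξ2 k, prod_mul_distrib, prod_const, card_range] at hprod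
  have hI : IsIntegral ℤ (∏ k ∈ range e, ξ k) := IsIntegral.prod _ fun k _ => hξ1 k
  have hbc : (b : ℂ) ^ e ≠ 0 := pow_ne_zero _ (by exact_mod_cast (by omega : b ≠ 0))
  have h5 : (∏ k ∈ range e, ξ k) = (((e + 1 : ℕ) : ℚ) / ((b ^ e : ℕ) : ℚ) : ℚ) := by
    push_cast
    rw [eq_div_iff hbc, mul_comm]
    exact_mod_cast hprod
  rw [h5] at hI
  obtain ⟨m, hm⟩ := int_of_integral _ hI
  have hbq : ((b ^ e : ℕ) : ℚ) ≠ 0 := by
    have : b ^ e ≠ 0 := pow_ne_zero _ (by omega)
    exact_mod_cast this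
  rw [eq_div_iff hbq] at hm
  have hm2 : m * ((b ^ e : ℕ) : ℤ) = ((e + 1 : ℕ) : ℤ) := by exact_mod_cast hm
  have h6 : (b ^ e : ℕ) ∣ e + 1 := by
    have : ((b ^ e : ℕ) : ℤ) ∣ ((e + 1 : ℕ) : ℤ) := ⟨m, by linarith⟩
    exact_mod_cast this
  have h7 : b ^ e ≤ e + 1 := Nat.le_of_dvd (by omega) h6
  have h8 : 3 ^ e ≤ b ^ e := Nat.pow_le_pow_left hb e
  have h9 : ∀ e : ℕ, 1 ≤ e → e + 1 < 3 ^ e := by
    intro e he
    induction e, he using Nat.le_induction with
    | base => norm_num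
    | succ n hn ih => rw [pow_succ]; omega
  have := h9 e (by omega)
  omega

lemma not_integral_two {u v ξ : ℂ} (hu : u ^ 4 = 1) (hv : v ^ 2 = -u ^ 2) (hξ : IsIntegral ℤ ξ)
    (h : u ^ 2 = -(u - v + 2 * ξ)) : False := by
  -- `w = u ^ 2 + u - v` satisfies `w = - 2 ξ`
  have hI : IsIntegral ℤ (Complex.I) := integral_root (n := 4) (by norm_num) (by
    rw [Complex.I_pow_four])
  have hu2 : (u - 1) * (u + 1) * ((u - Complex.I) * (u + Complex.I)) = 0 := by
    have : (u - 1) * (u + 1) * ((u - Complex.I) * (u + Complex.I)) = u ^ 4 - 1 := by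
      have := Complex.I_sq
      linear_combination (-(u ^ 2 - 1)) * this
    rw [this, hu, sub_self]
  have hv2 : (v - Complex.I * u) * (v + Complex.I * u) = 0 := by
    have := Complex.I_sq
    linear_combination hv - u ^ 2 * this
  have hc : ∃ c : ℤ, (ξ + c) ^ 2 = ((-1 / 4 : ℚ) : ℂ) := by
    have hI2 := Complex.I_sq
    have hξ2 : ξ = -(u ^ 2 + u - v) / 2 := by linear_combination (1 / 2 : ℂ) * h
    rcases mul_eq_zero.1 hv2 with hv3 | hv3
    · have hv4 : v = Complex.I * u := by linear_combination hv3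
      rcases mul_eq_zero.1 hu2 with hu3 | hu3
      · rcases mul_eq_zero.1 hu3 with hu4 | hu4
        · have hu5 : u = 1 := by linear_combination hu4
          refine ⟨1, ?_⟩
          rw [hξ2, hv4, hu5]
          push_cast
          linear_combination (1 / 4 : ℂ) * hI2
        · have hu5 : u = -1 := by linear_combination hu4
          refine ⟨0, ?_⟩
          rw [hξ2, hv4, hu5]
          push_cast
          linear_combination (1 / 4 : ℂ) * hI2
      · rcases mul_eq_zero.1 hu3 with hu4 | hu4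
        · have hu5 : u = Complex.I := by linear_combination hu4
          have e : u ^ 2 + u - v = Complex.I := by
            rw [hv4, hu5]
            ring
          refine ⟨0, ?_⟩
          rw [hξ2, e]
          push_cast
          linear_combination (1 / 4 : ℂ) * hI2
        · have hu5 : u = -Complex.I := by linear_combination hu4
          have e : u ^ 2 + u - v = -2 - Complex.I := by
            rw [hv4, hu5]
            linear_combination 2 * hI2
          refine ⟨-1, ?_⟩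
          rw [hξ2, e]
          push_cast
          linear_combination (1 / 4 : ℂ) * hI2
    · have hv4 : v = -Complex.I * u := by linear_combination hv3
      rcases mul_eq_zero.1 hu2 with hu3 | hu3
      · rcases mul_eq_zero.1 hu3 with hu4 | hu4
        · have hu5 : u = 1 := by linear_combination hu4
          refine ⟨1, ?_⟩
          rw [hξ2, hv4, hu5]
          push_cast
          linear_combination (1 / 4 : ℂ) * hI2
        · have hu5 : u = -1 := by linear_combination hu4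
          refine ⟨0, ?_⟩
          rw [hξ2, hv4, hu5]
          push_cast
          linear_combination (1 / 4 : ℂ) * hI2
      · rcases mul_eq_zero.1 hu3 with hu4 | hu4
        · have hu5 : u = Complex.I := by linear_combination hu4
          have e : u ^ 2 + u - v = -2 + Complex.I := by
            rw [hv4, hu5]
            linear_combination 2 * hI2
          refine ⟨-1, ?_⟩
          rw [hξ2, e]
          push_cast
          linear_combination (1 / 4 : ℂ) * hI2
        · have hu5 : u = -Complex.I := by linear_combination hu4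
          have e : u ^ 2 + u - v = -Complex.I := by
            rw [hv4, hu5]
            ring
          refine ⟨0, ?_⟩
          rw [hξ2, e]
          push_cast
          linear_combination (1 / 4 : ℂ) * hI2
  obtain ⟨c, hc⟩ := hc
  have h3 : IsIntegral ℤ (((-1 / 4 : ℚ) : ℂ)) := by
    rw [← hc]
    exact (hξ.add (by simpa using (isIntegral_algebraMap (R := ℤ) (A := ℂ) (x := c)))).pow 2
  obtain ⟨m, hm⟩ := int_of_integral _ h3
  have h4 : (4 : ℚ) * m = -1 := by rw [hm]; norm_num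
  have h5 : 4 * m = -1 := by exact_mod_cast h4
  omega

/-- the limit of the main coefficients -/
noncomputable def E (B a s b l : ℕ) : ℂ :=
  ∑ j ∈ range l, (ee (-((s * b ^ j : ℕ) * (((a : ℝ) + 1) / B))) -
    ee (-((s * b ^ j : ℕ) * ((a : ℝ) / B)))) / b ^ j

lemma E_ne_zero {b l a s : ℕ} (hb : 2 ≤ b) (hl : 1 ≤ l) (hbs : ¬ b ∣ s) : E (b ^ l) a s b l ≠ 0 := by
  intro hE
  obtain ⟨r, rfl⟩ : ∃ r, l = r + 1 := ⟨l - 1, by omega⟩
  have hB : 0 < b ^ (r + 1) := by positivity
  have hbR : (b : ℝ) ≠ 0 := by positivity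
  have hbC : (b : ℂ) ≠ 0 := by exact_mod_cast (by omega : b ≠ 0)
  set z : ℂ := ee (-(s * ((a : ℝ) / (b ^ (r + 1) : ℕ)))) with hz
  set z' : ℂ := ee (-(s * (((a : ℝ) + 1) / (b ^ (r + 1) : ℕ)))) with hz'
  set ω : ℂ := ee (-((s : ℝ) / b)) with hω
  have p1 : ∀ j : ℕ, ee (-((s * b ^ j : ℕ) * ((a : ℝ) / (b ^ (r + 1) : ℕ)))) = z ^ b ^ j := by
    intro j
    rw [hz, ← ee_nat_mul]
    congr 1
    push_cast
    ring
  have p2 : ∀ j : ℕ, ee (-((s * b ^ j : ℕ) * (((a : ℝ) + 1) / (b ^ (r + 1) : ℕ)))) = z' ^ b ^ j := by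
    intro j
    rw [hz', ← ee_nat_mul]
    congr 1
    push_cast
    ring
  have hzI : IsIntegral ℤ z := by
    have := integral_ee hB (-(s * a : ℤ))
    rw [hz]
    convert this using 2
    push_cast
    ring
  have hzI' : IsIntegral ℤ z' := by
    have := integral_ee hB (-(s * (a + 1) : ℤ))
    rw [hz']
    convert this using 2
    push_cast
    ring
  have hlast : z' ^ b ^ r = z ^ b ^ r * ω := by
    rw [hz, hz', hω, ← ee_nat_mul, ← ee_nat_mul, ← ee_add]
    congr 1
    push_cast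
    rw [pow_succ]
    field_simp
    ring
  have hω1 : ω ^ b = 1 := by
    rw [hω, ← ee_nat_mul]
    have : (b : ℝ) * (-((s : ℝ) / b)) = ((-(s : ℤ) : ℤ) : ℝ) := by
      push_cast
      field_simp
    rw [this, ee_int]
  have hω2 : ω ≠ 1 := by
    intro h
    rw [hω] at h
    obtain ⟨n, hn⟩ := ee_one_iff h
    apply hbs
    have h1 : (s : ℝ) = -(b * n) := by
      field_simp at hn
      linarith
    have h2 : (s : ℤ) = b * (-n) := by
      have : (s : ℝ) = ((b * (-n) : ℤ) : ℝ) := by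
        push_cast
        linarith
      exact_mod_cast this
    have h3 : (b : ℤ) ∣ s := ⟨-n, h2⟩
    exact_mod_cast h3
  -- the relation
  unfold E at hE
  simp_rw [p1, p2] at hE
  have hη : ∃ η : ℂ, IsIntegral ℤ η ∧ z' ^ b ^ r - z ^ b ^ r = -(b * η) ∧
      (∀ r', r = r' + 1 → ∃ ξ : ℂ, IsIntegral ℤ ξ ∧ η = z' ^ b ^ r' - z ^ b ^ r' + b * ξ) := by
    refine ⟨∑ j ∈ range r, (b : ℂ) ^ (r - 1 - j) * (z' ^ b ^ j - z ^ b ^ j),
      IsIntegral.sum _ fun j _ => IsIntegral.mul (IsIntegral.pow (by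
        simpa using (isIntegral_algebraMap (R := ℤ) (A := ℂ) (x := (b : ℤ)))) _)
        ((hzI'.pow _).sub (hzI.pow _)), ?_, ?_⟩
    · have h1 : (b : ℂ) ^ r * ∑ j ∈ range (r + 1), (z' ^ b ^ j - z ^ b ^ j) / (b : ℂ) ^ j = 0 := by
        rw [hE, mul_zero]
      rw [sum_range_succ, mul_add, mul_sum, mul_div_cancel₀ _ (pow_ne_zero _ hbC)] at h1
      rw [mul_sum]
      have h2 : ∀ j ∈ range r, (b : ℂ) ^ r * ((z' ^ b ^ j - z ^ b ^ j) / (b : ℂ) ^ j) =
          b * ((b : ℂ) ^ (r - 1 - j) * (z' ^ b ^ j - z ^ b ^ j)) := by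
        intro j hj
        have hj' := mem_range.1 hj
        have h3 : (b : ℂ) ^ r = b * (b : ℂ) ^ (r - 1 - j) * (b : ℂ) ^ j := by
          rw [← pow_succ', ← pow_add]
          congr 1
          omega
        rw [h3]
        field_simp
      rw [sum_congr rfl h2] at h1
      linear_combination h1
    · rintro r' rfl
      refine ⟨∑ j ∈ range r', (b : ℂ) ^ (r' - 1 - j) * (z' ^ b ^ j - z ^ b ^ j),
        IsIntegral.sum _ fun j _ => IsIntegral.mul (IsIntegral.pow (by
          simpa using (isIntegral_algebraMap (R := ℤ) (A := ℂ) (x := (b : ℤ)))) _)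
          ((hzI'.pow _).sub (hzI.pow _)), ?_⟩
      rw [sum_range_succ, mul_sum]
      have h2 : ∀ j ∈ range r', (b : ℂ) ^ (r' + 1 - 1 - j) * (z' ^ b ^ j - z ^ b ^ j) =
          b * ((b : ℂ) ^ (r' - 1 - j) * (z' ^ b ^ j - z ^ b ^ j)) := by
        intro j hj
        have hj' := mem_range.1 hj
        rw [← mul_assoc, ← pow_succ']
        congr 2
        omega
      rw [sum_congr rfl h2]
      have h3 : r' + 1 - 1 - r' = 0 := by omega
      rw [h3, pow_zero]
      ring
  obtain ⟨η, hη1, hη2, hη3⟩ := hη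
  have hzn : z ^ b ^ r ≠ 0 := pow_ne_zero _ (ee_ne_zero _)
  -- the inverse of a root of unity
  have hzB : z ^ b ^ (r + 1) = 1 := by
    rw [hz, ← ee_nat_mul]
    have : ((b ^ (r + 1) : ℕ) : ℝ) * (-(s * ((a : ℝ) / (b ^ (r + 1) : ℕ)))) = ((-(s * a) : ℤ) : ℝ) := by
      have : ((b ^ (r + 1) : ℕ) : ℝ) ≠ 0 := by positivity
      push_cast at this ⊢
      field_simp
    rw [this, ee_int]
  rcases Nat.lt_or_ge b 3 with hb3 | hb3
  · have hb2 : b = 2 := by omega
    subst hb2
    have hω3 : ω = -1 := by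
      have h1 : (ω - 1) * (ω + 1) = 0 := by linear_combination hω1
      rcases mul_eq_zero.1 h1 with h2 | h2
      · exact absurd (by linear_combination h2) hω2
      · linear_combination h2
    rw [hlast, hω3] at hη2
    rcases Nat.eq_zero_or_pos r with hr | hr
    · subst hr
      rw [sum_range_one] at hE
      rw [hω3] at hlast
      rw [hlast] at hE
      have h1 : z ^ 2 ^ 0 = 0 := by
        have e0 : (2 : ℕ) ^ 0 = 1 := pow_zero 2
        have e1 : ((2 : ℕ) : ℂ) ^ 0 = 1 := pow_zero _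
        rw [e1, div_one, e0] at hE
        rw [e0]
        linear_combination (-1 / 2 : ℂ) * hE
      exact hzn h1
    · obtain ⟨r', rfl⟩ : ∃ r', r = r' + 1 := ⟨r - 1, by omega⟩
      obtain ⟨ξ, hξ1, hξ2⟩ := hη3 r' rfl
      have e1 : z ^ 2 ^ (r' + 1) = (z ^ 2 ^ r') ^ 2 := by rw [pow_succ 2 r', pow_mul]
      have e2 : z' ^ 2 ^ (r' + 1) = (z' ^ 2 ^ r') ^ 2 := by rw [pow_succ 2 r', pow_mul]
      have e3 : z ^ 2 ^ (r' + 1 + 1) = (z ^ 2 ^ r') ^ 4 := by
        rw [pow_succ 2 (r' + 1), pow_succ 2 r', mul_assoc, pow_mul]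
        rfl
      rw [e3] at hzB
      rw [e1, e2, hω3] at hlast
      rw [e1] at hη2
      refine not_integral_two (u := z ^ 2 ^ r') (v := z' ^ 2 ^ r') (ξ := -ξ) hzB
        (by linear_combination hlast) hξ1.neg ?_
      push_cast at hη2 hξ2
      linear_combination (-1 / 2 : ℂ) * hη2 + hξ2
  · rw [hlast] at hη2
    have e1 : z ^ b ^ (r + 1) = (z ^ b ^ r) ^ b := by rw [pow_succ b r, pow_mul]
    rw [e1] at hzB
    obtain ⟨c, rfl⟩ : ∃ c, b = c + 1 := ⟨b - 1, by omega⟩
    refine not_integral_three (η := η * (z ^ (c + 1) ^ r) ^ c) hb3 hω1 hω2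
      (hη1.mul ((hzI.pow _).pow _)) ?_
    have h1 : (z ^ (c + 1) ^ r) ^ c * z ^ (c + 1) ^ r = 1 := by
      rw [← pow_succ]
      exact hzB
    linear_combination (-(z ^ (c + 1) ^ r) ^ c) * hη2 - (1 - ω) * h1

lemma lim_D (c : ℝ) : Tendsto (fun M : ℕ => (M : ℂ) * (ee (-(c / M)) - 1)) atTop
    (𝓝 (-(2 * π * Complex.I * c))) := by
  have h1 : HasDerivAt (fun t : ℝ => ee (-(c * t))) (-(2 * π * Complex.I * c)) 0 := by
    have h2 : HasDerivAt (fun t : ℝ => (2 * π * Complex.I * ((-(c * t) : ℝ) : ℂ) : ℂ))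
        (-(2 * π * Complex.I * c)) 0 := by
      have h3 : HasDerivAt (fun t : ℝ => ((t : ℝ) : ℂ)) 1 0 := Complex.ofRealCLM.hasDerivAt
      have h4 := h3.const_mul (-(2 * π * Complex.I * c))
      rw [mul_one] at h4
      refine h4.congr_of_eventuallyEq (Filter.Eventually.of_forall fun t => ?_)
      push_cast
      ring
    have h5 := h2.cexp
    have h6 : Complex.exp (2 * π * Complex.I * ((-(c * 0) : ℝ) : ℂ)) = 1 := by simp
    rw [h6, one_mul] at h5
    exact h5
  have h7 := h1.tendsto_slope_zero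
  have h8 : Tendsto (fun M : ℕ => ((M : ℝ))⁻¹) atTop (𝓝[≠] 0) := by
    rw [tendsto_nhdsWithin_iff]
    refine ⟨tendsto_inv_atTop_nhds_zero_nat, ?_⟩
    filter_upwards [eventually_gt_atTop 0] with M hM
    have : (M : ℝ) ≠ 0 := by positivity
    simpa using this
  have h9 := h7.comp h8
  refine h9.congr fun M => ?_
  simp only [Function.comp, inv_inv, zero_add, mul_zero, neg_zero, ee_zero, Complex.real_smul,
    div_eq_mul_inv]
  push_cast
  rfl

/-- the main coefficient is of the order of `M` -/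
lemma coef_lower {b l a s : ℕ} (hb : 2 ≤ b) (hl : 1 ≤ l) (hbs : ¬ b ∣ s) :
    ∃ c : ℝ, 0 < c ∧ ∃ M₀ : ℕ, ∀ M : ℕ, M₀ ≤ M →
      c * M ≤ ‖∑ j ∈ range l, A M (b ^ l) a s b j‖ := by
  have hs : s ≠ 0 := by
    rintro rfl
    exact hbs (dvd_zero b)
  have hsR : (s : ℂ) ≠ 0 := by exact_mod_cast hs
  have hbC : (b : ℂ) ≠ 0 := by exact_mod_cast (by omega : b ≠ 0)
  have hE := E_ne_zero (a := a) hb hl hbs
  set L : ℂ := E (b ^ l) a s b l / (-(2 * π * Complex.I * s)) with hL
  have hpi : (-(2 * π * Complex.I * s) : ℂ) ≠ 0 :=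
    neg_ne_zero.2 (mul_ne_zero Complex.two_pi_I_ne_zero hsR)
  have hL0 : L ≠ 0 := div_ne_zero hE hpi
  have hlim : Tendsto (fun M : ℕ => (∑ j ∈ range l, A M (b ^ l) a s b j) / M) atTop (𝓝 L) := by
    have h1 : L = ∑ j ∈ range l, (ee (-((s * b ^ j : ℕ) * (((a : ℝ) + 1) / (b ^ l : ℕ)))) -
        ee (-((s * b ^ j : ℕ) * ((a : ℝ) / (b ^ l : ℕ))))) / (-(2 * π * Complex.I * ((s * b ^ j : ℕ) : ℝ))) := by
      rw [hL, E, sum_div]
      refine sum_congr rfl fun j _ => ?_
      rw [div_div]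
      congr 1
      push_cast
      ring
    have h2 : ∀ M : ℕ, (∑ j ∈ range l, A M (b ^ l) a s b j) / M =
        ∑ j ∈ range l, (ee (-((s * b ^ j : ℕ) * (((a : ℝ) + 1) / (b ^ l : ℕ)))) -
        ee (-((s * b ^ j : ℕ) * ((a : ℝ) / (b ^ l : ℕ))))) /
          ((M : ℂ) * (ee (-(((s * b ^ j : ℕ) : ℝ) / M)) - 1)) := by
      intro M
      rw [sum_div]
      refine sum_congr rfl fun j _ => ?_
      unfold A
      rw [div_div, mul_comm (M : ℂ)]
    rw [h1]
    refine Tendsto.congr (fun M => (h2 M).symm) ?_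
    refine tendsto_finsetSum _ fun j _ => ?_
    refine Tendsto.div tendsto_const_nhds (lim_D _) ?_
    refine neg_ne_zero.2 (mul_ne_zero Complex.two_pi_I_ne_zero ?_)
    push_cast
    exact mul_ne_zero hsR (pow_ne_zero _ hbC)
  have h3 := hlim.norm
  have h4 : 0 < ‖L‖ := norm_pos_iff.2 hL0
  have h5 : ∀ᶠ M : ℕ in atTop, ‖L‖ / 2 < ‖(∑ j ∈ range l, A M (b ^ l) a s b j) / (M : ℂ)‖ :=
    h3.eventually (lt_mem_nhds (by linarith))
  obtain ⟨M₀, hM₀⟩ := eventually_atTop.1 (h5.and (eventually_gt_atTop 0))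
  refine ⟨‖L‖ / 2, by positivity, M₀, fun M hM => ?_⟩
  obtain ⟨h6, h7⟩ := hM₀ M hM
  have h8 : (0 : ℝ) < M := by exact_mod_cast h7
  have h9 : ‖(∑ j ∈ range l, A M (b ^ l) a s b j) / (M : ℂ)‖ =
      ‖∑ j ∈ range l, A M (b ^ l) a s b j‖ / M := by rw [norm_div, Complex.norm_natCast]
  rw [h9, lt_div_iff₀ h8] at h6
  exact h6.le

end Pool.Agent.N915.WT
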