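import Pool.Agent.N915.WT.Fourth

/-! # The exponential sum is small if few translates have a deficiency -/

set_option autoImplicit false

namespace Pool.Agent.N915.WT

open Finset Filter Topology
open Pool.Agent.H534R3.UDist Pool.Agent.H534R3.Rota
open scoped Real

lemma weighted_eq {b M s B a : ℕ} (hs : 1 ≤ s) (hsM : s < M) (y : ℝ) (N : ℕ) :
    ∑ n ∈ range N, ∑ p ∈ range M, ee (-(s * ((p : ℝ) / M))) *
      (ind B a (b ^ n * y + b ^ n * (p / M)) : ℂ) =
      ∑ p ∈ range M, ee (-(s * ((p : ℝ) / M))) * ((X b B a M y N p : ℝ) : ℂ) := by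
  have e2 : ∑ p ∈ range M, ee (-(s * ((p : ℝ) / M))) * ((X b B a M y N p : ℝ) : ℂ) =
      ∑ p ∈ range M, ee (-(s * ((p : ℝ) / M))) * ((Sw b B a (y + p / M) N : ℝ) : ℂ) -
        (∑ p ∈ range M, ee (-(s * ((p : ℝ) / M)))) * (N / B) := by
    rw [sum_mul, ← sum_sub_distrib]
    refine sum_congr rfl fun p _ => ?_
    unfold X
    push_cast
    ring
  rw [e2, sum_ee_frac hs hsM, zero_mul, sub_zero, sum_comm]
  refine sum_congr rfl fun p _ => ?_
  unfold Sw
  rw [Complex.ofReal_sum, mul_sum]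
  refine sum_congr rfl fun n _ => ?_
  rw [mul_add]

/-- the sum over the multiples of `k` -/
noncomputable def U (b s k Q : ℕ) (y : ℝ) : ℂ := ∑ q ∈ range Q, ee (s * (b ^ (k * q) * y))

/-- the error -/
noncomputable def D (M s b a l : ℕ) : ℝ := ‖∑ j ∈ range l, A M (b ^ l) a s b j - A M (b ^ l) a s b 0‖

lemma U_T {b k M s l a Q : ℕ} (hb : 0 < b) (hM : M + 1 = b ^ k) (hM0 : 0 < M) (hs1 : 1 ≤ s)
    (hs : 2 * s ≤ M) (hbs : ¬ b ∣ s) (ha : a < b ^ l) (hk : 1 ≤ k) (hl : l ≤ k) (y : ℝ) :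
    ‖(∑ j ∈ range l, A M (b ^ l) a s b j) * U b s k Q y -
      ∑ p ∈ range M, ee (-(s * ((p : ℝ) / M))) * ((X b (b ^ l) a M y (k * Q) p : ℝ) : ℂ)‖ ≤
        4 * π * s * (k * Q : ℕ) + 2 * D M s b a l := by
  have hB : 0 < b ^ l := by positivity
  set N := k * Q with hN
  set α : ℕ → ℂ := fun j => A M (b ^ l) a s b j with hα
  have hκ : ∑ j ∈ range k, α j = ∑ j ∈ range l, α j := by
    obtain ⟨e, rfl⟩ : ∃ e, k = l + e := ⟨k - l, by omega⟩
    rw [sum_range_add]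
    have : ∑ i ∈ range e, α (l + i) = 0 := sum_eq_zero fun i _ => A_zero hb (by omega)
    rw [this, add_zero]
  set g : ℕ → ℂ := fun n => ee (s * (b ^ n * y)) with hg
  set G : ℕ → ℂ := fun n => ∑ p ∈ range M, ee (-(s * ((p : ℝ) / M))) *
      (ind (b ^ l) a (b ^ n * y + b ^ n * (p / M)) : ℂ) with hG
  have h1 : ∀ n ∈ range N, ‖G n - g (n + (k - n % k) % k) * α ((k - n % k) % k)‖ ≤ 4 * π * s := by
    intro n _
    set j := (k - n % k) % k with hj
    have hjk : j < k := Nat.mod_lt _ (by omega)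
    have e1 := change hM0 hM (b ^ l) a s (b ^ n * y) n j (mod_dvd k n hk)
    have e2 := trans_approx hM hM0 hs hbs hB ha j hjk (b ^ n * y)
    simp only [hG, hg, hα]
    rw [e1]
    have e3 : (s : ℝ) * ((b : ℝ) ^ (n + j) * y) = ((s * b ^ j : ℕ) : ℝ) * ((b : ℝ) ^ n * y) := by
      push_cast
      rw [pow_add]
      ring
    rw [e3]
    exact e2
  have h2 : ‖∑ n ∈ range N, G n - ∑ n ∈ range N, g (n + (k - n % k) % k) * α ((k - n % k) % k)‖ ≤
      4 * π * s * N := by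
    rw [← sum_sub_distrib]
    refine (norm_sum_le_of_le _ h1).trans (le_of_eq ?_)
    rw [sum_const, card_range, nsmul_eq_mul]
    ring
  have h3 := main_terms k Q hk g α
  rw [hκ, ← hN] at h3
  have h4 : ∑ n ∈ range N, G n =
      ∑ p ∈ range M, ee (-(s * ((p : ℝ) / M))) * ((X b (b ^ l) a M y N p : ℝ) : ℂ) :=
    weighted_eq hs1 (by omega) y N
  rw [← h4]
  have h5 : (∑ j ∈ range l, α j) * U b s k Q y - ∑ n ∈ range N, G n =
      -(∑ n ∈ range N, G n -
        ∑ n ∈ range N, g (n + (k - n % k) % k) * α ((k - n % k) % k)) -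
        (∑ j ∈ range l, α j - α 0) * (g N - g 0) := by
    rw [h3]
    unfold U
    simp only [hg]
    ring
  have h6 : ‖(∑ j ∈ range l, α j - α 0) * (g N - g 0)‖ ≤ 2 * D M s b a l := by
    unfold D
    rw [norm_mul, mul_comm]
    apply mul_le_mul_of_nonneg_right _ (norm_nonneg _)
    refine (norm_sub_le _ _).trans ?_
    simp only [hg, norm_ee]
    norm_num
  have h7 : ‖(∑ j ∈ range l, α j) * U b s k Q y - ∑ n ∈ range N, G n‖ ≤
      4 * π * s * N + 2 * D M s b a l := by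
    rw [h5]
    refine (norm_sub_le _ _).trans (add_le_add ?_ h6)
    rw [norm_neg]
    exact h2
  exact h7

lemma shift_real (f : ℕ → ℝ) (hf : ∀ n, |f n| ≤ 1) (N j : ℕ) :
    |∑ n ∈ range N, f (n + j) - ∑ n ∈ range N, f n| ≤ 2 * j := by
  have h1 := sum_range_add f N j
  have h2 := sum_range_add f j N
  rw [Nat.add_comm j N, h1] at h2
  have h3 : ∑ n ∈ range N, f (j + n) = ∑ n ∈ range N, f (n + j) :=
    sum_congr rfl fun n _ => by rw [Nat.add_comm]
  rw [h3] at h2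
  have h4 : ∑ n ∈ range N, f (n + j) - ∑ n ∈ range N, f n =
      ∑ n ∈ range j, f (N + n) - ∑ n ∈ range j, f n := by
    linear_combination -h2
  rw [h4]
  have h5 : ∀ g : ℕ → ℝ, (∀ n, |g n| ≤ 1) → |∑ n ∈ range j, g n| ≤ j := by
    intro g hg
    refine (abs_sum_le_sum_abs _ _).trans ((sum_le_sum fun n _ => hg n).trans (le_of_eq ?_))
    simp
  refine (abs_sub _ _).trans ?_
  have := h5 f hf
  have := h5 (fun n => f (N + n)) fun n => hf _
  linarith

lemma X_per {b B a M : ℕ} (hM : 0 < M) (y : ℝ) (N q : ℕ) : X b B a M y N (q + M) = X b B a M y N q := by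
  rw [X_eq, X_eq]
  refine sum_congr rfl fun n _ => ?_
  have hMR : (M : ℝ) ≠ 0 := by positivity
  have e1 : (b : ℝ) ^ n * (y + ((q + M : ℕ) : ℝ) / M) = b ^ n * (y + q / M) + ((b ^ n : ℕ) : ℤ) := by
    push_cast
    field_simp
    ring
  rw [e1, cf_add_int]

lemma X_shift {b B a M : ℕ} (hB : 1 ≤ B) (y : ℝ) (N p i : ℕ) :
    |X b B a M (b ^ i * y) N (b ^ i * p) - X b B a M y N p| ≤ 2 * i := by
  have e1 : X b B a M (b ^ i * y) N (b ^ i * p) =
      ∑ n ∈ range N, (fun n => cf B a ((b : ℝ) ^ n * (y + p / M))) (n + i) := by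
    rw [X_eq]
    refine sum_congr rfl fun n _ => ?_
    beta_reduce
    congr 1
    rw [pow_add]
    push_cast
    ring
  rw [e1, X_eq]
  exact shift_real (fun n => cf B a ((b : ℝ) ^ n * (y + p / M))) (fun n => cf_abs hB a _) N i

lemma unit_pow {b k M : ℕ} (hM : M + 1 = b ^ k) (hk : 1 ≤ k) (i : ℕ) :
    ((b ^ i * b ^ ((k - i % k) % k) : ℕ) : ZMod M) = 1 := by
  have hb : ((b ^ k : ℕ) : ZMod M) = 1 := by
    rw [← hM]
    push_cast
    simp
  obtain ⟨q, hq⟩ := mod_dvd k i hk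
  rw [← pow_add, hq, pow_mul]
  push_cast at hb ⊢
  rw [hb, one_pow]

lemma T_shift {b k M s B a : ℕ} (hM : M + 1 = b ^ k) (hM0 : 0 < M) (hk : 1 ≤ k) (hB : 1 ≤ B)
    (y : ℝ) (N i : ℕ) :
    ‖∑ p ∈ range M, ee (-(s * ((p : ℝ) / M))) * ((X b B a M (b ^ i * y) N p : ℝ) : ℂ) -
      ∑ p ∈ range M, ee (-(s * (b ^ i * ((p : ℝ) / M)))) * ((X b B a M y N p : ℝ) : ℂ)‖ ≤
      2 * i * M := by
  have hMR : (M : ℝ) ≠ 0 := by positivity
  set F : ℕ → ℂ := fun p => ee (-(s * ((p : ℝ) / M))) * ((X b B a M (b ^ i * y) N p : ℝ) : ℂ) with hF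
  have hper : ∀ q, F (q + M) = F q := by
    intro q
    simp only [hF]
    rw [X_per hM0]
    have e1 : -(s * (((q + M : ℕ) : ℝ) / M)) = -(s * ((q : ℝ) / M)) - ((s : ℤ) : ℝ) := by
      push_cast
      field_simp
      ring
    rw [e1, ee_sub_int]
  have h1 := sum_mul_unit hM0 F hper (unit_pow hM hk i)
  rw [← h1, ← sum_sub_distrib]
  have h2 : ∀ p ∈ range M, ‖F (b ^ i * p) -
      ee (-(s * (b ^ i * ((p : ℝ) / M)))) * ((X b B a M y N p : ℝ) : ℂ)‖ ≤ 2 * i := by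
    intro p _
    have e1 : F (b ^ i * p) - ee (-(s * (b ^ i * ((p : ℝ) / M)))) * ((X b B a M y N p : ℝ) : ℂ) =
        ee (-(s * (b ^ i * ((p : ℝ) / M)))) *
          ((X b B a M (b ^ i * y) N (b ^ i * p) - X b B a M y N p : ℝ) : ℂ) := by
      simp only [hF]
      have e2 : -(s * (((b ^ i * p : ℕ) : ℝ) / M)) = -(s * ((b : ℝ) ^ i * ((p : ℝ) / M))) := by
        push_cast
        ring
      rw [e2]
      push_cast
      ring
    rw [e1, norm_mul, norm_ee, one_mul, Complex.norm_real, Real.norm_eq_abs]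
    exact X_shift hB y N p i
  refine (norm_sum_le_of_le _ h2).trans (le_of_eq ?_)
  rw [sum_const, card_range, nsmul_eq_mul]
  ring

lemma abs_shift {b k M B a : ℕ} (hM : M + 1 = b ^ k) (hM0 : 0 < M) (hk : 1 ≤ k) (hB : 1 ≤ B)
    (y : ℝ) (N i : ℕ) :
    ∑ p ∈ range M, |X b B a M (b ^ i * y) N p| ≤ ∑ p ∈ range M, |X b B a M y N p| + 2 * i * M := by
  have hper : ∀ q, (fun p => |X b B a M (b ^ i * y) N p|) (q + M) =
      (fun p => |X b B a M (b ^ i * y) N p|) q := by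
    intro q
    beta_reduce
    rw [X_per hM0]
  have h1 := sum_mul_unit hM0 (fun p => |X b B a M (b ^ i * y) N p|) hper (unit_pow hM hk i)
  rw [← h1]
  have h2 : ∀ p ∈ range M, |X b B a M (b ^ i * y) N (b ^ i * p)| ≤ |X b B a M y N p| + 2 * i := by
    intro p _
    have h3 := X_shift (a := a) (M := M) (b := b) hB y N p i
    have h4 := abs_sub_abs_le_abs_sub (X b B a M (b ^ i * y) N (b ^ i * p)) (X b B a M y N p)
    linarith
  refine (sum_le_sum h2).trans (le_of_eq ?_)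
  rw [sum_add_distrib, sum_const, card_range, nsmul_eq_mul]
  ring

/-- the sum over `h` residue classes -/
lemma V_T {b k M s l a Q h : ℕ} (hb : 0 < b) (hM : M + 1 = b ^ k) (hM0 : 0 < M) (hs1 : 1 ≤ s)
    (hs : 2 * s ≤ M) (hbs : ¬ b ∣ s) (ha : a < b ^ l) (hk : 1 ≤ k) (hl : l ≤ k) (hh : h ≤ k) (y : ℝ) :
    ‖(∑ j ∈ range l, A M (b ^ l) a s b j) * ∑ i ∈ range h, U b s k Q (b ^ i * y)‖ ≤
      ‖∑ p ∈ range M, wt b s M h p * ((X b (b ^ l) a M y (k * Q) p : ℝ) : ℂ)‖ +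
        h * (4 * π * s * (k * Q : ℕ) + 2 * D M s b a l + 2 * k * M) := by
  have hB : 1 ≤ b ^ l := Nat.one_le_iff_ne_zero.2 (by positivity)
  set κ := ∑ j ∈ range l, A M (b ^ l) a s b j with hκ
  set N := k * Q with hN
  have e1 : ∑ p ∈ range M, wt b s M h p * ((X b (b ^ l) a M y N p : ℝ) : ℂ) =
      ∑ i ∈ range h, ∑ p ∈ range M, ee (-(s * (b ^ i * ((p : ℝ) / M)))) *
        ((X b (b ^ l) a M y N p : ℝ) : ℂ) := by
    rw [sum_comm]
    refine sum_congr rfl fun p _ => ?_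
    rw [wt, sum_mul]
  have h1 : ‖κ * ∑ i ∈ range h, U b s k Q (b ^ i * y) -
      ∑ p ∈ range M, wt b s M h p * ((X b (b ^ l) a M y N p : ℝ) : ℂ)‖ ≤
      h * (4 * π * s * (N : ℕ) + 2 * D M s b a l + 2 * k * M) := by
    rw [e1, mul_sum, ← sum_sub_distrib]
    have h2 : ∀ i ∈ range h, ‖κ * U b s k Q (b ^ i * y) -
        ∑ p ∈ range M, ee (-(s * (b ^ i * ((p : ℝ) / M)))) * ((X b (b ^ l) a M y N p : ℝ) : ℂ)‖ ≤
        4 * π * s * (N : ℕ) + 2 * D M s b a l + 2 * k * M := by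
      intro i hi
      have hi' := mem_range.1 hi
      have h3 := U_T (Q := Q) hb hM hM0 hs1 hs hbs ha hk hl (b ^ i * y)
      have h4 := T_shift (s := s) (a := a) hM hM0 hk hB y N i
      have e2 : κ * U b s k Q (b ^ i * y) -
        ∑ p ∈ range M, ee (-(s * (b ^ i * ((p : ℝ) / M)))) * ((X b (b ^ l) a M y N p : ℝ) : ℂ) =
        (κ * U b s k Q (b ^ i * y) -
          ∑ p ∈ range M, ee (-(s * ((p : ℝ) / M))) * ((X b (b ^ l) a M (b ^ i * y) N p : ℝ) : ℂ)) +
        (∑ p ∈ range M, ee (-(s * ((p : ℝ) / M))) * ((X b (b ^ l) a M (b ^ i * y) N p : ℝ) : ℂ) -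
          ∑ p ∈ range M, ee (-(s * (b ^ i * ((p : ℝ) / M)))) * ((X b (b ^ l) a M y N p : ℝ) : ℂ)) := by
        ring
      rw [e2]
      have h5 : (2 : ℝ) * i * M ≤ 2 * k * M := by
        have : (i : ℝ) ≤ k := by exact_mod_cast (by omega : i ≤ k)
        have hM' : (0 : ℝ) ≤ M := Nat.cast_nonneg _
        nlinarith
      exact (norm_add_le _ _).trans (by linarith)
    refine (norm_sum_le_of_le _ h2).trans (le_of_eq ?_)
    rw [sum_const, card_range, nsmul_eq_mul]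
  have h6 := norm_sub_norm_le (κ * ∑ i ∈ range h, U b s k Q (b ^ i * y))
    (∑ p ∈ range M, wt b s M h p * ((X b (b ^ l) a M y N p : ℝ) : ℂ))
  linarith

/-- truncation of the weights -/
lemma trunc {b k M s l a Q h : ℕ} (hb : 2 ≤ b) (hM : M + 1 = b ^ k) (hM0 : 0 < M) (hs1 : 1 ≤ s)
    (ha : a < b ^ l) (hk : 1 ≤ k) (hh : h ≤ k) (hsh : 2 * s * b ^ h ≤ M) (hQ : 1 ≤ Q) (y : ℝ)
    {ρ : ℝ} (hρ : 0 < ρ) :
    ‖∑ p ∈ range M, wt b s M h p * ((X b (b ^ l) a M y (k * Q) p : ℝ) : ℂ)‖ ≤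
      ρ * √k * ∑ p ∈ range M, |X b (b ^ l) a M y (k * Q) p| + 28 * M * (k * Q) / ρ := by
  have hB : 0 < b ^ l := by positivity
  have hkR : (0 : ℝ) < k := by exact_mod_cast hk
  have hQR : (0 : ℝ) < Q := by exact_mod_cast hQ
  have hMR : (0 : ℝ) < M := by exact_mod_cast hM0
  have hsk : 0 < √(k : ℝ) := Real.sqrt_pos.2 hkR
  have hsk2 : √(k : ℝ) * √k = k := Real.mul_self_sqrt hkR.le
  set x : ℕ → ℝ := fun p => X b (b ^ l) a M y (k * Q) p with hx
  set R : ℝ := ρ * √k with hR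
  have hR0 : 0 < R := by positivity
  set lam : ℝ := Q / √k with hlam
  have hlam0 : 0 < lam := by positivity
  have h1 : ∀ p ∈ range M, ‖wt b s M h p * ((x p : ℝ) : ℂ)‖ ≤
      R * |x p| + (lam * ‖wt b s M h p‖ ^ 4 + x p ^ 2 / lam) / (2 * R) := by
    intro p _
    rw [norm_mul, Complex.norm_real, Real.norm_eq_abs]
    set w := ‖wt b s M h p‖ with hw
    have hw0 : 0 ≤ w := norm_nonneg _
    have hx0 : 0 ≤ |x p| := abs_nonneg _
    have h2 : w * |x p| ≤ R * |x p| + w ^ 2 * |x p| / R := by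
      rcases le_total w R with h3 | h3
      · have : 0 ≤ w ^ 2 * |x p| / R := by positivity
        nlinarith
      · have h4 : w * |x p| ≤ w ^ 2 * |x p| / R := by
          rw [le_div_iff₀ hR0]
          have : 0 ≤ w * |x p| := by positivity
          nlinarith
        have : 0 ≤ R * |x p| := by positivity
        linarith
    have h3 : w ^ 2 * |x p| ≤ (lam * w ^ 4 + x p ^ 2 / lam) / 2 := by
      have h4 : 0 ≤ (lam * w ^ 2 - |x p|) ^ 2 := sq_nonneg _
      have h5 : |x p| ^ 2 = x p ^ 2 := sq_abs _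
      rw [le_div_iff₀ (by norm_num : (0 : ℝ) < 2)]
      have h6 : lam * w ^ 4 + x p ^ 2 / lam = (lam ^ 2 * w ^ 4 + x p ^ 2) / lam := by
        field_simp
      rw [h6, le_div_iff₀ hlam0]
      nlinarith
    have h4 : w ^ 2 * |x p| / R ≤ (lam * w ^ 4 + x p ^ 2 / lam) / (2 * R) := by
      have h5 := div_le_div_of_nonneg_right h3 hR0.le
      rwa [div_div] at h5
    linarith
  refine (norm_sum_le_of_le _ h1).trans ?_
  rw [sum_add_distrib, ← mul_sum, ← sum_div, sum_add_distrib, ← mul_sum, ← sum_div]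
  have h2 := fourth hb hs1 hM0 hsh
  have h3 := second (Q := Q) hb hM hM0 hB ha hk y
  have hhk : (h : ℝ) ^ 2 ≤ k ^ 2 := by
    have : (h : ℝ) ≤ k := by exact_mod_cast hh
    gcongr
  have h4 : lam * ∑ p ∈ range M, ‖wt b s M h p‖ ^ 4 ≤ 2 * M * (k * Q) * √k := by
    calc lam * ∑ p ∈ range M, ‖wt b s M h p‖ ^ 4 ≤ lam * (2 * M * k ^ 2) := by
          refine mul_le_mul_of_nonneg_left (h2.trans ?_) hlam0.le
          gcongr
      _ = 2 * M * (k * Q) * √k := by
          rw [hlam]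
          have : (k : ℝ) ^ 2 = √k * √k * k := by rw [hsk2]; ring
          rw [this]
          field_simp
  have h5 : (∑ p ∈ range M, x p ^ 2) / lam ≤ 54 * M * (k * Q) * √k := by
    rw [div_le_iff₀ hlam0, hlam]
    refine h3.trans (le_of_eq ?_)
    field_simp
  have h6 : (lam * ∑ p ∈ range M, ‖wt b s M h p‖ ^ 4 + (∑ p ∈ range M, x p ^ 2) / lam) / (2 * R) ≤
      28 * M * (k * Q) / ρ := by
    rw [div_le_div_iff₀ (by positivity) hρ, hR]
    have : (lam * ∑ p ∈ range M, ‖wt b s M h p‖ ^ 4 + (∑ p ∈ range M, x p ^ 2) / lam) ≤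
        56 * M * (k * Q) * √k := by linarith
    nlinarith
  linarith

/-- the first moment, if few translates have a deficiency -/
lemma first {b k M l a Q : ℕ} (hb : 2 ≤ b) (hM : M + 1 = b ^ k) (hM0 : 0 < M)
    (ha : a < b ^ l) (hk : 1 ≤ k) (hQ : 1 ≤ Q) (y : ℝ) {σ θ : ℝ} (hσ : |σ| = 1) (hθ : 0 < θ)
    (Bad : Finset ℕ) (hBad : (Bad.card : ℝ) ≤ θ ^ 2 * M)
    (h : ∀ p ∈ range M, p ∉ Bad → -(θ / √k * (k * Q)) ≤ σ * X b (b ^ l) a M y (k * Q) p) :
    ∑ p ∈ range M, |X b (b ^ l) a M y (k * Q) p| ≤ k * Q + 57 * M * (k * Q) * θ / √k := by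
  have hB : 0 < b ^ l := by positivity
  have hkR : (0 : ℝ) < k := by exact_mod_cast hk
  have hQR : (0 : ℝ) < Q := by exact_mod_cast hQ
  have hMR : (0 : ℝ) < M := by exact_mod_cast hM0
  have hsk : 0 < √(k : ℝ) := Real.sqrt_pos.2 hkR
  have hsk2 : √(k : ℝ) * √k = k := Real.mul_self_sqrt hkR.le
  set x : ℕ → ℝ := fun p => X b (b ^ l) a M y (k * Q) p with hx
  set μ : ℝ := k * Q / (θ * √k) with hμ
  have hμ0 : 0 < μ := by positivity
  have h1 : ∀ p ∈ range M, |x p| ≤ σ * x p + 2 * (θ / √k * (k * Q)) +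
      ((if p ∈ Bad then μ else 0) + x p ^ 2 / μ) := by
    intro p hp
    have h2 : |x p| = |σ * x p| := by rw [abs_mul, hσ, one_mul]
    have h3 : 0 ≤ x p ^ 2 / μ := by positivity
    have h4 : 0 < θ / √k * (k * Q) := by positivity
    by_cases hpB : p ∈ Bad
    · rw [if_pos hpB]
      have h5 : 2 * |x p| ≤ μ + x p ^ 2 / μ := by
        have h6 : μ + x p ^ 2 / μ = (μ ^ 2 + x p ^ 2) / μ := by field_simp
        rw [h6, le_div_iff₀ hμ0]
        have h7 : |x p| ^ 2 = x p ^ 2 := sq_abs _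
        nlinarith [sq_nonneg (μ - |x p|)]
      have h6 : -|x p| ≤ σ * x p := by
        rw [h2]
        exact neg_abs_le _
      linarith
    · rw [if_neg hpB, zero_add]
      have h5 := h p hp hpB
      have h6 : |σ * x p| ≤ σ * x p + 2 * (θ / √k * (k * Q)) := by
        rw [abs_le]
        constructor <;> linarith
      linarith
  refine (sum_le_sum h1).trans ?_
  rw [sum_add_distrib, sum_add_distrib, sum_add_distrib, ← mul_sum, ← sum_div, sum_const,
    card_range, nsmul_eq_mul]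
  have h2 : σ * ∑ p ∈ range M, x p ≤ k * Q := by
    have h3 := sum_Sw hM hM0 (by omega) ha y (k * Q)
    refine (le_abs_self _).trans ?_
    rw [abs_mul, hσ, one_mul]
    push_cast at h3 ⊢
    simp only [hx, X]
    push_cast
    exact h3
  have h3 : ∑ p ∈ range M, (if p ∈ Bad then μ else 0) ≤ θ ^ 2 * M * μ := by
    rw [← sum_filter, sum_const, nsmul_eq_mul]
    refine mul_le_mul_of_nonneg_right ?_ hμ0.le
    refine le_trans ?_ hBad
    have : ((range M).filter (fun p => p ∈ Bad)).card ≤ Bad.card :=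
      card_le_card fun p hp => (mem_filter.1 hp).2
    exact_mod_cast this
  have h4 := second (Q := Q) hb hM hM0 hB ha hk y
  have h5 : (∑ p ∈ range M, x p ^ 2) / μ ≤ 54 * M * (k * Q) * θ / √k := by
    rw [div_le_iff₀ hμ0, hμ]
    refine h4.trans (le_of_eq ?_)
    have : 54 * (M : ℝ) * (k * Q) * θ / √k * (k * Q / (θ * √k)) =
        54 * M * (k * Q) * (k * Q) / (√k * √k) := by
      field_simp
    rw [this, hsk2]
    field_simp
  have h6 : θ ^ 2 * M * μ = M * (k * Q) * θ / √k := by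
    rw [hμ]
    field_simp
  have h7 : (M : ℝ) * (2 * (θ / √k * (k * Q))) = 2 * (M * (k * Q) * θ / √k) := by ring
  have h8 : 54 * (M : ℝ) * (k * Q) * θ / √k = 54 * (M * (k * Q) * θ / √k) := by ring
  have h9 : 57 * (M : ℝ) * (k * Q) * θ / √k = 57 * (M * (k * Q) * θ / √k) := by ring
  rw [h9]
  rw [h8] at h5
  rw [h6] at h3
  linarith

end Pool.Agent.N915.WT
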