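import Pool.Agent.N915.WT.Coef

/-! # The main inequality -/

set_option autoImplicit false

namespace Pool.Agent.N915.WT

open Finset Filter Topology
open Pool.Agent.H534R3.UDist Pool.Agent.H534R3.Rota
open scoped Real

/-- the number of occurrences of the word with value `a` at the places `0, …, N - 1` of `z` -/
noncomputable def Sw (b B a : ℕ) (z : ℝ) (N : ℕ) : ℝ := ∑ n ∈ range N, ind B a (b ^ n * z)

/-- the exponential sum -/
noncomputable def W (b s : ℕ) (y : ℝ) (N : ℕ) : ℂ := ∑ n ∈ range N, ee (s * (b ^ n * y))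

lemma A_zero {M b a s l j : ℕ} (hb : 0 < b) (hlj : l ≤ j) : A M (b ^ l) a s b j = 0 := by
  unfold A
  have e1 : ee (-((s * b ^ j : ℕ) * (((a : ℝ) + 1) / (b ^ l : ℕ)))) =
      ee (-((s * b ^ j : ℕ) * ((a : ℝ) / (b ^ l : ℕ)))) := by
    obtain ⟨e, rfl⟩ : ∃ e, j = l + e := ⟨j - l, by omega⟩
    have hb' : (b : ℝ) ^ l ≠ 0 := by positivity
    have : -(((s * b ^ (l + e) : ℕ) : ℝ) * (((a : ℝ) + 1) / (b ^ l : ℕ))) =
        -(((s * b ^ (l + e) : ℕ) : ℝ) * ((a : ℝ) / (b ^ l : ℕ))) - ((s * b ^ e : ℕ) : ℤ) := by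
      push_cast
      rw [pow_add]
      field_simp
      ring
    rw [this, ee_sub_int]
  rw [e1, sub_self, zero_div]

lemma sum_ee_frac {M s : ℕ} (hs : 1 ≤ s) (hsM : s < M) :
    ∑ p ∈ range M, ee (-(s * ((p : ℝ) / M))) = 0 := by
  have h := sum_ee_zero s M hs hsM
  have h2 : ∑ p ∈ range M, ee (-(s * ((p : ℝ) / M))) =
      (starRingEnd ℂ) (∑ p ∈ range M, ee (s * ((p : ℝ) / M))) := by
    rw [map_sum]
    exact sum_congr rfl fun p _ => ee_neg _
  rw [h2, h, map_zero]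

/-- the weighted sum of the counts -/
lemma weighted {b M s B a : ℕ} (hs : 1 ≤ s) (hsM : s < M) (y : ℝ) (N : ℕ) :
    ‖∑ n ∈ range N, ∑ p ∈ range M, ee (-(s * ((p : ℝ) / M))) *
      (ind B a (b ^ n * y + b ^ n * (p / M)) : ℂ)‖ ≤
      ∑ p ∈ range M, |Sw b B a (y + p / M) N - N / B| := by
  have e1 : ∑ n ∈ range N, ∑ p ∈ range M, ee (-(s * ((p : ℝ) / M))) *
      (ind B a (b ^ n * y + b ^ n * (p / M)) : ℂ) =
      ∑ p ∈ range M, ee (-(s * ((p : ℝ) / M))) * ((Sw b B a (y + p / M) N - N / B : ℝ) : ℂ) := by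
    have e2 : ∑ p ∈ range M, ee (-(s * ((p : ℝ) / M))) * ((Sw b B a (y + p / M) N - N / B : ℝ) : ℂ) =
        ∑ p ∈ range M, ee (-(s * ((p : ℝ) / M))) * ((Sw b B a (y + p / M) N : ℝ) : ℂ) -
          (∑ p ∈ range M, ee (-(s * ((p : ℝ) / M)))) * (N / B) := by
      rw [sum_mul, ← sum_sub_distrib]
      refine sum_congr rfl fun p _ => ?_
      push_cast
      ring
    rw [e2, sum_ee_frac hs hsM, zero_mul, sub_zero, sum_comm]
    refine sum_congr rfl fun p _ => ?_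
    unfold Sw
    rw [Complex.ofReal_sum, mul_sum]
    refine sum_congr rfl fun n _ => ?_
    rw [mul_add]
  rw [e1]
  refine (norm_sum_le _ _).trans (sum_le_sum fun p _ => ?_)
  rw [norm_mul, norm_ee, one_mul, Complex.norm_real, Real.norm_eq_abs]

/-- splitting of the range `k Q` -/
lemma sum_range_kQ {R : Type} [AddCommMonoid R] (k Q : ℕ) (f : ℕ → R) :
    ∑ n ∈ range (k * Q), f n = ∑ q ∈ range Q, ∑ i ∈ range k, f (k * q + i) := by
  induction Q with
  | zero => simp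
  | succ Q ih =>
    rw [Nat.mul_succ, sum_range_add, ih, sum_range_succ]

/-- the sum of the main terms -/
lemma main_terms (k Q : ℕ) (hk : 1 ≤ k) (g : ℕ → ℂ) (α : ℕ → ℂ) :
    ∑ n ∈ range (k * Q), g (n + (k - n % k) % k) * α ((k - n % k) % k) =
      (∑ j ∈ range k, α j) * ∑ q ∈ range Q, g (k * q) +
        (∑ j ∈ range k, α j - α 0) * (g (k * Q) - g 0) := by
  obtain ⟨k, rfl⟩ : ∃ k', k = k' + 1 := ⟨k - 1, by omega⟩
  rw [sum_range_kQ]
  have h1 : ∀ q ∈ range Q, ∑ i ∈ range (k + 1), g ((k + 1) * q + i + ((k + 1) - ((k + 1) * q + i) % (k + 1)) % (k + 1)) *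
      α (((k + 1) - ((k + 1) * q + i) % (k + 1)) % (k + 1)) =
      g ((k + 1) * q) * α 0 + g ((k + 1) * (q + 1)) * (∑ j ∈ range (k + 1), α j - α 0) := by
    intro q _
    rw [sum_range_succ']
    have e0 : ((k + 1) * q + 0) % (k + 1) = 0 := by simp
    rw [e0, Nat.sub_zero, Nat.mod_self, Nat.add_zero, Nat.add_zero]
    have e1 : ∀ i ∈ range k, g ((k + 1) * q + (i + 1) +
        ((k + 1) - ((k + 1) * q + (i + 1)) % (k + 1)) % (k + 1)) *
        α (((k + 1) - ((k + 1) * q + (i + 1)) % (k + 1)) % (k + 1)) =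
        g ((k + 1) * (q + 1)) * α (k - 1 - i + 1) := by
      intro i hi
      have hi' := mem_range.1 hi
      have e2 : ((k + 1) * q + (i + 1)) % (k + 1) = i + 1 := by
        rw [Nat.mul_add_mod, Nat.mod_eq_of_lt (by omega)]
      have e3 : ((k + 1) - (i + 1)) % (k + 1) = k - 1 - i + 1 := by
        rw [Nat.mod_eq_of_lt (by omega)]
        omega
      rw [e2, e3]
      congr 2
      rw [Nat.mul_succ]
      omega
    rw [sum_congr rfl e1, ← mul_sum]
    have e4 : ∑ i ∈ range k, α (k - 1 - i + 1) = ∑ i ∈ range k, α (i + 1) :=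
      sum_range_reflect (fun i => α (i + 1)) k
    rw [e4, sum_range_succ']
    ring_nf
  rw [sum_congr rfl h1, sum_add_distrib, ← sum_mul, ← sum_mul]
  have h2 : ∑ q ∈ range Q, g ((k + 1) * (q + 1)) = ∑ q ∈ range Q, g ((k + 1) * q) +
      (g ((k + 1) * Q) - g 0) := by
    have h3 := sum_range_succ (fun q => g ((k + 1) * q)) Q
    have h4 := sum_range_succ' (fun q => g ((k + 1) * q)) Q
    beta_reduce at h3 h4
    rw [h3, Nat.mul_zero] at h4
    linear_combination -h4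
  rw [h2]
  ring

lemma mod_dvd (k n : ℕ) (hk : 1 ≤ k) : k ∣ n + (k - n % k) % k := by
  have h1 := Nat.div_add_mod n k
  have h2 := Nat.mod_lt n (by omega : k > 0)
  rcases Nat.eq_zero_or_pos (n % k) with h | h
  · rw [h, Nat.sub_zero, Nat.mod_self, Nat.add_zero]
    exact Nat.dvd_of_mod_eq_zero h
  · rw [Nat.mod_eq_of_lt (by omega : k - n % k < k)]
    refine ⟨n / k + 1, ?_⟩
    rw [Nat.mul_succ]
    omega

lemma U_bound {b k M s l a Q : ℕ} (hb : 0 < b) (hM : M + 1 = b ^ k) (hM0 : 0 < M) (hs1 : 1 ≤ s)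
    (hs : 2 * s ≤ M) (hbs : ¬ b ∣ s) (ha : a < b ^ l) (hk : 1 ≤ k) (hl : l ≤ k) (y : ℝ) :
    ‖∑ j ∈ range l, A M (b ^ l) a s b j‖ * ‖∑ q ∈ range Q, ee (s * (b ^ (k * q) * y))‖ ≤
      ∑ p ∈ range M, |Sw b (b ^ l) a (y + p / M) (k * Q) - (k * Q : ℕ) / (b ^ l : ℕ)| +
        4 * π * s * (k * Q : ℕ) +
        2 * ‖∑ j ∈ range l, A M (b ^ l) a s b j - A M (b ^ l) a s b 0‖ := by
  have hB : 0 < b ^ l := by positivity
  set N := k * Q with hN
  set α : ℕ → ℂ := fun j => A M (b ^ l) a s b j with hα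
  have hκ : ∑ j ∈ range k, α j = ∑ j ∈ range l, α j := by
    obtain ⟨e, rfl⟩ : ∃ e, k = l + e := ⟨k - l, by omega⟩
    rw [sum_range_add]
    have : ∑ i ∈ range e, α (l + i) = 0 := sum_eq_zero fun i _ => A_zero hb (by omega)
    rw [this, add_zero]
  set g : ℕ → ℂ := fun n => ee (s * (b ^ n * y)) with hg
  set G : ℕ → ℂ := fun n => ∑ p ∈ range M, ee (-(s * ((p : ℝ) / M))) *
      (ind (b ^ l) a (b ^ n * y + b ^ n * (p / M)) : ℂ) with hG
  have h1 : ∀ n ∈ range N, ‖G n - g (n + (k - n % k) % k) * α ((k - n % k) % k)‖ ≤ 4 * π * s := by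
    intro n _
    set j := (k - n % k) % k with hj
    have hjk : j < k := Nat.mod_lt _ (by omega)
    have e1 := change hM0 hM (b ^ l) a s (b ^ n * y) n j (mod_dvd k n hk)
    have e2 := trans_approx hM hM0 hs hbs hB ha j hjk (b ^ n * y)
    simp only [hG, hg, hα]
    rw [e1]
    have e3 : (s : ℝ) * ((b : ℝ) ^ (n + j) * y) = ((s * b ^ j : ℕ) : ℝ) * ((b : ℝ) ^ n * y) := by
      push_cast
      rw [pow_add]
      ring
    rw [e3]
    exact e2
  have h2 : ‖∑ n ∈ range N, G n - ∑ n ∈ range N, g (n + (k - n % k) % k) * α ((k - n % k) % k)‖ ≤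
      4 * π * s * N := by
    rw [← sum_sub_distrib]
    refine (norm_sum_le_of_le _ h1).trans (le_of_eq ?_)
    rw [sum_const, card_range, nsmul_eq_mul]
    ring
  have h3 := main_terms k Q hk g α
  rw [hκ, ← hN] at h3
  have h4 : ‖∑ n ∈ range N, G n‖ ≤
      ∑ p ∈ range M, |Sw b (b ^ l) a (y + p / M) N - N / (b ^ l : ℕ)| :=
    weighted hs1 (by omega) y N
  have h5 : (∑ j ∈ range l, α j) * ∑ q ∈ range Q, g (k * q) =
      ∑ n ∈ range N, G n - (∑ n ∈ range N, G n -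
        ∑ n ∈ range N, g (n + (k - n % k) % k) * α ((k - n % k) % k)) -
        (∑ j ∈ range l, α j - α 0) * (g N - g 0) := by
    rw [h3]
    ring
  have h6 : ‖(∑ j ∈ range l, α j - α 0) * (g N - g 0)‖ ≤ 2 * ‖∑ j ∈ range l, α j - α 0‖ := by
    rw [norm_mul, mul_comm]
    apply mul_le_mul_of_nonneg_right _ (norm_nonneg _)
    refine (norm_sub_le _ _).trans ?_
    simp only [hg, norm_ee]
    norm_num
  rw [← norm_mul]
  have h7 : ‖(∑ j ∈ range l, α j) * ∑ q ∈ range Q, g (k * q)‖ ≤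
      ∑ p ∈ range M, |Sw b (b ^ l) a (y + p / M) N - N / (b ^ l : ℕ)| + 4 * π * s * N +
        2 * ‖∑ j ∈ range l, α j - α 0‖ := by
    rw [h5]
    refine (norm_sub_le _ _).trans (add_le_add ((norm_sub_le _ _).trans (add_le_add h4 h2)) h6)
  exact h7

/-- the exponential sum is bounded by the deviations of the translates -/
lemma W_bound {b k M s l a Q : ℕ} (hb : 0 < b) (hM : M + 1 = b ^ k) (hM0 : 0 < M) (hs1 : 1 ≤ s)
    (hs : 2 * s ≤ M) (hbs : ¬ b ∣ s) (ha : a < b ^ l) (hk : 1 ≤ k) (hl : l ≤ k) (y : ℝ) :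
    ‖∑ j ∈ range l, A M (b ^ l) a s b j‖ * ‖W b s y (k * Q)‖ ≤
      ∑ i ∈ range k, ∑ p ∈ range M,
        |Sw b (b ^ l) a (b ^ i * y + p / M) (k * Q) - (k * Q : ℕ) / (b ^ l : ℕ)| +
        4 * π * s * k * (k * Q : ℕ) +
        2 * k * ‖∑ j ∈ range l, A M (b ^ l) a s b j - A M (b ^ l) a s b 0‖ := by
  have e1 : W b s y (k * Q) = ∑ i ∈ range k, ∑ q ∈ range Q, ee (s * (b ^ (k * q) * (b ^ i * y))) := by
    unfold W
    rw [sum_range_kQ, sum_comm]
    refine sum_congr rfl fun i _ => sum_congr rfl fun q _ => ?_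
    congr 1
    rw [pow_add]
    ring
  rw [e1]
  refine (mul_le_mul_of_nonneg_left (norm_sum_le _ _) (norm_nonneg _)).trans ?_
  rw [mul_sum]
  refine (sum_le_sum fun i _ => U_bound (Q := Q) hb hM hM0 hs1 hs hbs ha hk hl (b ^ i * y)).trans ?_
  rw [sum_add_distrib, sum_add_distrib, sum_const, sum_const, card_range, nsmul_eq_mul, nsmul_eq_mul]
  apply le_of_eq
  ring

/-- the mean over the translates -/
lemma sum_Sw {b k M l a : ℕ} (hM : M + 1 = b ^ k) (hM0 : 0 < M) (hb : 0 < b) (ha : a < b ^ l)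
    (y : ℝ) (N : ℕ) :
    |∑ p ∈ range M, (Sw b (b ^ l) a (y + p / M) N - N / (b ^ l : ℕ))| ≤ N := by
  have hB : 0 < b ^ l := by positivity
  have e1 : ∑ p ∈ range M, (Sw b (b ^ l) a (y + p / M) N - N / (b ^ l : ℕ)) =
      ∑ n ∈ range N, ∑ p ∈ range M, (ind (b ^ l) a (b ^ n * (y + p / M)) - 1 / (b ^ l : ℕ)) := by
    rw [sum_comm]
    refine sum_congr rfl fun p _ => ?_
    unfold Sw
    rw [sum_sub_distrib, sum_const, card_range, nsmul_eq_mul]
    ring
  rw [e1]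
  have h1 : ∀ n ∈ range N, |∑ p ∈ range M, (ind (b ^ l) a (b ^ n * (y + p / M)) - 1 / (b ^ l : ℕ))| ≤ 1 := by
    intro n _
    -- the change of variables with frequency zero
    have e2 : ∑ p ∈ range M, ind (b ^ l) a (b ^ n * (y + p / M)) =
        ∑ p ∈ range M, ind (b ^ l) a (b ^ n * y + p / M) := by
      rcases Nat.eq_zero_or_pos k with hk | hk
      · rw [hk, pow_zero] at hM
        omega
      · have hd := mod_dvd k n hk
        have h := change hM0 hM (b ^ l) a 0 (b ^ n * y) n _ hd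
        simp only [Nat.cast_zero, zero_mul, neg_zero, ee_zero, one_mul, zero_div, one_pow] at h
        have h2 : ((∑ p ∈ range M, ind (b ^ l) a (b ^ n * y + b ^ n * (p / M)) : ℝ) : ℂ) =
            ((∑ p ∈ range M, ind (b ^ l) a (b ^ n * y + p / M) : ℝ) : ℂ) := by
          push_cast
          exact h
        have h3 := Complex.ofReal_injective h2
        rw [← h3]
        refine sum_congr rfl fun p _ => ?_
        rw [mul_add]
    have e3 : ∑ p ∈ range M, (ind (b ^ l) a (b ^ n * (y + p / M)) - 1 / (b ^ l : ℕ)) =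
        Int.fract ((M : ℝ) * (b ^ n * y - ((a : ℝ) + 1) / (b ^ l : ℕ))) -
          Int.fract ((M : ℝ) * (b ^ n * y - (a : ℝ) / (b ^ l : ℕ))) := by
      rw [sum_sub_distrib, e2]
      have e4 : ∑ p ∈ range M, ind (b ^ l) a (b ^ n * y + p / M) =
          ∑ p ∈ range M, (1 / (b ^ l : ℕ) : ℝ) +
            (∑ p ∈ range M, Int.fract (b ^ n * y - ((a : ℝ) + 1) / (b ^ l : ℕ) + p / M) -
            ∑ p ∈ range M, Int.fract (b ^ n * y - (a : ℝ) / (b ^ l : ℕ) + p / M)) := by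
        rw [← sum_sub_distrib, ← sum_add_distrib]
        refine sum_congr rfl fun p _ => ?_
        rw [ind_eq hB ha]
        have e5 : (b : ℝ) ^ n * y + (p : ℝ) / M - ((a : ℝ) + 1) / (b ^ l : ℕ) =
          b ^ n * y - ((a : ℝ) + 1) / (b ^ l : ℕ) + p / M := by ring
        have e6 : (b : ℝ) ^ n * y + (p : ℝ) / M - (a : ℝ) / (b ^ l : ℕ) =
          b ^ n * y - (a : ℝ) / (b ^ l : ℕ) + p / M := by ring
        rw [e5, e6]
        ring
      rw [e4, hermite hM0, hermite hM0]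
      ring
    rw [e3, abs_le]
    have g1 := Int.fract_nonneg ((M : ℝ) * (b ^ n * y - ((a : ℝ) + 1) / (b ^ l : ℕ)))
    have g2 := Int.fract_lt_one ((M : ℝ) * (b ^ n * y - ((a : ℝ) + 1) / (b ^ l : ℕ)))
    have g3 := Int.fract_nonneg ((M : ℝ) * (b ^ n * y - (a : ℝ) / (b ^ l : ℕ)))
    have g4 := Int.fract_lt_one ((M : ℝ) * (b ^ n * y - (a : ℝ) / (b ^ l : ℕ)))
    constructor <;> linarith
  refine (abs_sum_le_sum_abs _ _).trans ((sum_le_sum h1).trans (le_of_eq ?_))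
  rw [sum_const, card_range, nsmul_eq_mul, mul_one]

end Pool.Agent.N915.WT
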