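import Pool.Agent.N915.WT.Comb

/-! # Few translates with a deficiency imply small exponential sums -/

set_option autoImplicit false

namespace Pool.Agent.N915.WT

open Finset Filter Topology
open Pool.Agent.H534R3.UDist Pool.Agent.H534R3.Rota
open scoped Real

lemma W_split {b k s Q h : ℕ} (hh : h ≤ k) (y : ℝ) :
    W b s y (k * Q) = ∑ i ∈ range h, U b s k Q (b ^ i * y) +
      ∑ i ∈ range (k - h), U b s k Q (b ^ i * (b ^ h * y)) := by
  have e1 : W b s y (k * Q) = ∑ i ∈ range k, U b s k Q (b ^ i * y) := by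
    unfold W U
    rw [sum_range_kQ, sum_comm]
    refine sum_congr rfl fun i _ => sum_congr rfl fun q _ => ?_
    congr 1
    rw [pow_add]
    ring
  rw [e1]
  obtain ⟨e, rfl⟩ : ∃ e, k = h + e := ⟨k - h, by omega⟩
  rw [sum_range_add, Nat.add_sub_cancel_left]
  congr 1
  refine sum_congr rfl fun i _ => ?_
  congr 1
  rw [pow_add]
  ring

lemma W_few {b k M s l a Q : ℕ} (hb : 2 ≤ b) (hM : M + 1 = b ^ k) (hM0 : 0 < M) (hs1 : 1 ≤ s)
    (hbs : ¬ b ∣ s) (ha : a < b ^ l) (hk : 1 ≤ k) (hl : l ≤ k)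
    (hsh : 2 * s * b ^ ((k + 1) / 2) ≤ M) (hQ : 1 ≤ Q) (y : ℝ) {c ρ : ℝ} (hρ : 0 < ρ)
    (hκ : c * M ≤ ‖∑ j ∈ range l, A M (b ^ l) a s b j‖)
    {σ θ : ℝ} (hσ : |σ| = 1) (hθ : 0 < θ)
    (Bad : Finset ℕ) (hBad : (Bad.card : ℝ) ≤ θ ^ 2 * M)
    (h : ∀ p ∈ range M, p ∉ Bad → -(θ / √k * (k * Q)) ≤ σ * X b (b ^ l) a M y (k * Q) p) :
    c * M * ‖W b s y (k * Q)‖ ≤
      (k * Q) * (2 * ρ * √k + 114 * ρ * θ * M + 56 * M / ρ + 4 * π * s * k) +
        (2 * ρ * √k * k * M + 2 * k * D M s b a l + 2 * k ^ 2 * M) := by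
  have hb0 : 0 < b := by omega
  have hB : 1 ≤ b ^ l := Nat.one_le_iff_ne_zero.2 (by positivity)
  have hkR : (0 : ℝ) < k := by exact_mod_cast hk
  have hMR : (0 : ℝ) < M := by exact_mod_cast hM0
  have hsk : 0 < √(k : ℝ) := Real.sqrt_pos.2 hkR
  set hh := (k + 1) / 2 with hhh
  have hhk : hh ≤ k := by omega
  have hkh : k - hh ≤ hh := by omega
  have h2s : 2 * s ≤ M := by
    have h1 : 1 ≤ b ^ hh := Nat.one_le_iff_ne_zero.2 (by positivity)
    calc 2 * s = 2 * s * 1 := by ring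
      _ ≤ 2 * s * b ^ hh := Nat.mul_le_mul_left _ h1
      _ ≤ M := hsh
  have hsh2 : 2 * s * b ^ (k - hh) ≤ M :=
    (Nat.mul_le_mul_left _ (Nat.pow_le_pow_right (by omega) hkh)).trans hsh
  set S1 := ∑ p ∈ range M, |X b (b ^ l) a M y (k * Q) p| with hS1
  have h1 := V_T (Q := Q) hb0 hM hM0 hs1 h2s hbs ha hk hl hhk y
  have h2 := V_T (Q := Q) (h := k - hh) hb0 hM hM0 hs1 h2s hbs ha hk hl (by omega) (b ^ hh * y)
  have h3 := trunc (Q := Q) (h := hh) hb hM hM0 hs1 ha hk hhk hsh hQ y hρ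
  have h4 := trunc (Q := Q) (h := k - hh) hb hM hM0 hs1 ha hk (by omega) hsh2 hQ (b ^ hh * y) hρ
  have h5 := abs_shift (a := a) hM hM0 hk hB y (k * Q) hh
  have h6 : S1 ≤ k * Q + 57 * M * (k * Q) * θ / √k :=
    first hb hM hM0 ha hk hQ y hσ hθ Bad hBad h
  have h7 : c * M * ‖W b s y (k * Q)‖ ≤
      ‖(∑ j ∈ range l, A M (b ^ l) a s b j) * ∑ i ∈ range hh, U b s k Q (b ^ i * y)‖ +
      ‖(∑ j ∈ range l, A M (b ^ l) a s b j) * ∑ i ∈ range (k - hh), U b s k Q (b ^ i * (b ^ hh * y))‖ := by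
    refine (mul_le_mul_of_nonneg_right hκ (norm_nonneg _)).trans ?_
    rw [← norm_mul, W_split hhk, mul_add]
    exact norm_add_le _ _
  have h8 : ρ * √k * S1 ≤ ρ * √k * (k * Q + 57 * M * (k * Q) * θ / √k) :=
    mul_le_mul_of_nonneg_left h6 (by positivity)
  have h9 : ρ * √k * (k * Q + 57 * M * (k * Q) * θ / √k) =
      (k * Q) * (ρ * √k + 57 * ρ * θ * M) := by
    field_simp
  have h10 : ρ * √k * ∑ p ∈ range M, |X b (b ^ l) a M (b ^ hh * y) (k * Q) p| ≤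
      ρ * √k * (S1 + 2 * k * M) := by
    refine mul_le_mul_of_nonneg_left (h5.trans ?_) (by positivity)
    have : ((hh : ℕ) : ℝ) ≤ k := by exact_mod_cast hhk
    have : 2 * ((hh : ℕ) : ℝ) * M ≤ 2 * k * M := by gcongr
    linarith
  have hD0 : 0 ≤ D M s b a l := norm_nonneg _
  have h11 : (hh : ℝ) + ((k - hh : ℕ) : ℝ) = k := by exact_mod_cast (by omega : hh + (k - hh) = k)
  have h12 : (hh : ℝ) * (4 * π * s * ((k * Q : ℕ) : ℝ) + 2 * D M s b a l + 2 * k * M) +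
      ((k - hh : ℕ) : ℝ) * (4 * π * s * ((k * Q : ℕ) : ℝ) + 2 * D M s b a l + 2 * k * M) =
      (k * Q) * (4 * π * s * k) + (2 * k * D M s b a l + 2 * k ^ 2 * M) := by
    rw [← add_mul, h11]
    push_cast
    ring
  have h13 : (56 : ℝ) * M / ρ * (k * Q) = 28 * M * (k * Q) / ρ + 28 * M * (k * Q) / ρ := by ring
  nlinarith

/-- the word has frequency at most (`σ = 1`) or at least (`σ = -1`) `1 / b ^ l ∓ τ` in `z` infinitely
often -/
def Dev (σ : ℝ) (b l a : ℕ) (τ : ℝ) (z : ℝ) : Prop :=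
  ∃ᶠ N : ℕ in atTop, σ * (Sw b (b ^ l) a z N - N / (b ^ l : ℕ)) ≤ -(τ * N)

open Classical in
theorem few {b l a : ℕ} (hb : 2 ≤ b) (hl : 1 ≤ l) (ha : a < b ^ l) (s : ℕ) (hs : 1 ≤ s)
    (w : ℝ) (hw : 0 < w) :
    ∃ θ : ℝ, 0 < θ ∧ ∃ k₀ : ℕ, 1 ≤ k₀ ∧ ∀ k : ℕ, k₀ ≤ k → ∀ M : ℕ, M + 1 = b ^ k → ∀ σ : ℝ, |σ| = 1 →
      ∀ y : ℝ, (((range M).filter fun p : ℕ => Dev σ b l a (θ / √k) (y + p / M)).card : ℝ) ≤ θ ^ 2 * M →
        ∀ᶠ N : ℕ in atTop, ‖W b s y N‖ ≤ w * N := by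
  -- reduction to the case `¬ b ∣ s`
  wlog hbs : ¬ b ∣ s generalizing s w
  · obtain ⟨v, s₀, hs₀, hsv⟩ : ∃ v s₀ : ℕ, ¬ b ∣ s₀ ∧ s = b ^ v * s₀ := by
      obtain ⟨v, s₀, h1, h2⟩ := Nat.exists_eq_pow_mul_and_not_dvd (by omega : s ≠ 0) b (by omega)
      exact ⟨v, s₀, h1, h2⟩
    have hs1 : 1 ≤ s₀ := by
      rcases Nat.eq_zero_or_pos s₀ with h | h
      · exact absurd (h ▸ dvd_zero b) hs₀
      · exact h
    obtain ⟨θ, hθ, k₀, hk₀, h⟩ := this s₀ hs1 (w / 2) (by positivity) hs₀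
    refine ⟨θ, hθ, k₀, hk₀, fun k hk M hM σ hσ y hy => ?_⟩
    obtain ⟨N₁, hN₁⟩ := exists_nat_ge (2 * (v : ℝ) / (w / 2))
    filter_upwards [h k hk M hM σ hσ y hy, eventually_ge_atTop N₁] with N hN hN2
    have h1 : (2 * (v : ℝ) / (w / 2)) ≤ N := hN₁.trans (by exact_mod_cast hN2)
    rw [div_le_iff₀ (by positivity)] at h1
    have e1 : W b s y N = ∑ n ∈ range N, (fun n => ee (s₀ * ((b : ℝ) ^ n * y))) (n + v) := by
      unfold W
      refine sum_congr rfl fun n _ => ?_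
      beta_reduce
      congr 1
      rw [hsv, pow_add]
      push_cast
      ring
    have h2 : ‖W b s₀ y N - W b s y N‖ ≤ 2 * v := by
      rw [e1]
      have h3 := sum_range_add (fun n => ee (s₀ * ((b : ℝ) ^ n * y))) N v
      have h4 := sum_range_add (fun n => ee (s₀ * ((b : ℝ) ^ n * y))) v N
      rw [Nat.add_comm v N, h3] at h4
      have h5 : ∑ n ∈ range N, (fun n => ee (s₀ * ((b : ℝ) ^ n * y))) (v + n) =
          ∑ n ∈ range N, (fun n => ee (s₀ * ((b : ℝ) ^ n * y))) (n + v) :=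
        sum_congr rfl fun n _ => by rw [Nat.add_comm]
      rw [h5] at h4
      have h6 : W b s₀ y N - ∑ n ∈ range N, (fun n => ee (s₀ * ((b : ℝ) ^ n * y))) (n + v) =
          ∑ n ∈ range v, (fun n => ee (s₀ * ((b : ℝ) ^ n * y))) n -
            ∑ n ∈ range v, (fun n => ee (s₀ * ((b : ℝ) ^ n * y))) (N + n) := by
        unfold W
        linear_combination h4
      rw [h6]
      have h7 : ∀ g : ℕ → ℂ, (∀ n, ‖g n‖ ≤ 1) → ‖∑ n ∈ range v, g n‖ ≤ v := by
        intro g hg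
        refine (norm_sum_le_of_le _ fun n _ => hg n).trans (le_of_eq ?_)
        simp
      refine (norm_sub_le _ _).trans ?_
      have := h7 (fun n => ee (s₀ * ((b : ℝ) ^ n * y))) (fun n => (norm_ee _).le)
      have := h7 (fun n => (fun n => ee (s₀ * ((b : ℝ) ^ n * y))) (N + n)) (fun n => (norm_ee _).le)
      linarith
    have h8 : ‖W b s y N‖ ≤ ‖W b s₀ y N‖ + 2 * v := by
      have e2 : W b s y N = W b s₀ y N - (W b s₀ y N - W b s y N) := by ring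
      rw [e2]
      exact (norm_sub_le _ _).trans (by linarith)
    linarith
  obtain ⟨c, hc, M₀, hM₀⟩ := coef_lower (a := a) hb hl hbs
  have hpi := Real.pi_pos
  set ρ : ℝ := 448 / (c * w) with hρ
  have hρ0 : 0 < ρ := by positivity
  set θ : ℝ := c * w / (912 * ρ) with hθ
  have hθ0 : 0 < θ := by positivity
  have hb1 : (1 : ℝ) < b := by exact_mod_cast (by omega : 1 < b)
  -- the choice of `k₀`
  have hlim : Tendsto (fun k : ℕ => (2 * ρ + 4 * π * s) * 2 * ((k : ℝ) / (b : ℝ) ^ k)) atTop (𝓝 0) := by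
    have h3 := tendsto_pow_const_div_const_pow_of_one_lt 1 hb1
    simp only [pow_one] at h3
    have h4 := h3.const_mul ((2 * ρ + 4 * π * s) * 2)
    rwa [mul_zero] at h4
  obtain ⟨k₁, hk₁⟩ := eventually_atTop.1 (hlim.eventually (gt_mem_nhds (by positivity : (0 : ℝ) < c * w / 8)))
  refine ⟨θ, hθ0, k₁ + M₀ + l + 4 * s + 4, by omega, fun k hk M hM σ hσ y hy => ?_⟩
  have hlt : ∀ n : ℕ, n < b ^ n := fun n => Nat.lt_pow_self (by omega)
  have hkM := hlt k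
  have hM0 : 0 < M := by omega
  have hMM : M₀ ≤ M := by omega
  have hk1 : 1 ≤ k := by omega
  have hMR : (0 : ℝ) < M := by exact_mod_cast hM0
  have hkR : (1 : ℝ) ≤ k := by exact_mod_cast hk1
  have hsh : 2 * s * b ^ ((k + 1) / 2) ≤ M := by
    have h1 : k = (k + 1) / 2 + k / 2 := by omega
    have h2 := hlt (k / 2)
    have h3 : 2 * s + 1 ≤ b ^ (k / 2) := by omega
    have h4 : b ^ k = b ^ ((k + 1) / 2) * b ^ (k / 2) := by rw [← pow_add, ← h1]
    have h5 : 1 ≤ b ^ ((k + 1) / 2) := Nat.one_le_iff_ne_zero.2 (by positivity)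
    have h6 : b ^ ((k + 1) / 2) * (2 * s + 1) ≤ b ^ k := by
      rw [h4]
      exact Nat.mul_le_mul_left _ h3
    have h7 : b ^ ((k + 1) / 2) * (2 * s + 1) = 2 * s * b ^ ((k + 1) / 2) + b ^ ((k + 1) / 2) := by ring
    omega
  have hk3 : (2 * ρ * √k + 4 * π * s * k) ≤ c * w / 8 * M := by
    have h1 := hk₁ k (by omega)
    have h2 : √(k : ℝ) ≤ k := by
      rw [Real.sqrt_le_left (by linarith)]
      nlinarith
    have h3 : (b : ℝ) ^ k = M + 1 := by exact_mod_cast hM.symm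
    have h4 : (b : ℝ) ^ k ≤ 2 * M := by
      rw [h3]
      have : (1 : ℝ) ≤ M := by exact_mod_cast hM0
      linarith
    have hbk : (0 : ℝ) < (b : ℝ) ^ k := by positivity
    have h5 : (2 * ρ + 4 * π * s) * 2 * ((k : ℝ) / (b : ℝ) ^ k) = (2 * ρ + 4 * π * s) * 2 * k / (b : ℝ) ^ k := by
      ring
    rw [h5, div_lt_iff₀ hbk] at h1
    have h6 : c * w / 8 * (b : ℝ) ^ k ≤ c * w / 8 * (2 * M) := mul_le_mul_of_nonneg_left h4 (by positivity)
    have h7 : 2 * ρ * √k ≤ 2 * ρ * k := mul_le_mul_of_nonneg_left h2 (by positivity)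
    nlinarith
  -- the exceptional set
  set Bad := (range M).filter fun p : ℕ => Dev σ b l a (θ / √k) (y + p / M) with hBad
  have hgood : ∀ᶠ N : ℕ in atTop, ∀ p ∈ range M, p ∉ Bad →
      -(θ / √k * N) ≤ σ * X b (b ^ l) a M y N p := by
    rw [eventually_all_finset]
    intro p hp
    by_cases hpB : p ∈ Bad
    · exact Filter.Eventually.of_forall fun N h => absurd hpB h
    · have h1 : ¬ Dev σ b l a (θ / √k) (y + p / M) := fun h2 =>
        hpB (mem_filter.2 ⟨hp, h2⟩)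
      unfold Dev at h1
      rw [not_frequently] at h1
      filter_upwards [h1] with N hN _
      push Not at hN
      exact hN.le
  obtain ⟨N₀, hN₀⟩ := eventually_atTop.1 hgood
  set E₀ : ℝ := 2 * ρ * √k * k * M + 2 * k * D M s b a l + 2 * k ^ 2 * M with hE₀
  obtain ⟨N₁, hN₁⟩ := exists_nat_ge ((E₀ / (c * M) + k) / (w / 2))
  filter_upwards [eventually_ge_atTop (N₀ + 2 * k), eventually_ge_atTop N₁] with N hN hN2
  set Q := N / k with hQ
  have hQ1 : k * Q + N % k = N := Nat.div_add_mod N k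
  have hQ2 : N % k < k := Nat.mod_lt _ (by omega)
  have hQ3 : N₀ ≤ k * Q := by omega
  have hQ4 : 1 ≤ Q := by
    rw [hQ, Nat.le_div_iff_mul_le (by omega)]
    omega
  have hQ5 : ((k * Q : ℕ) : ℝ) ≤ N := by exact_mod_cast (by omega : k * Q ≤ N)
  have hW := W_few (c := c) (ρ := ρ) (Q := Q) hb hM hM0 hs hbs ha hk1 (by omega) hsh hQ4 y hρ0
    (hM₀ M hMM) hσ hθ0 Bad hy (fun p hp hpB => by
      have := hN₀ (k * Q) hQ3 p hp hpB
      push_cast at this
      exact this)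
  have h1 : 114 * ρ * θ * M = c * w / 8 * M := by
    rw [hθ]
    field_simp
    norm_num
  have h2 : 56 * M / ρ = c * w / 8 * M := by
    rw [hρ]
    field_simp
    norm_num
  have h3 : c * M * ‖W b s y (k * Q)‖ ≤ (k * Q) * (3 * (c * w / 8 * M)) + E₀ := by
    refine hW.trans ?_
    rw [← hE₀]
    have h4 : 2 * ρ * √k + 114 * ρ * θ * M + 56 * M / ρ + 4 * π * s * k ≤ 3 * (c * w / 8 * M) := by
      rw [h1, h2]
      linarith
    have h5 : (0 : ℝ) ≤ (k : ℝ) * Q := by positivity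
    have := mul_le_mul_of_nonneg_left h4 h5
    linarith
  have h4 : ‖W b s y (k * Q)‖ ≤ (k * Q) * (3 * w / 8) + E₀ / (c * M) := by
    have h5 : (k * Q : ℝ) * (3 * w / 8) + E₀ / (c * M) =
        ((k * Q) * (3 * (c * w / 8 * M)) + E₀) / (c * M) := by
      field_simp
    rw [h5, le_div_iff₀ (by positivity)]
    linarith
  have h5 := W_small_step b s y (k * Q) (N % k)
  rw [hQ1] at h5
  have h6 : ((N % k : ℕ) : ℝ) ≤ k := by exact_mod_cast hQ2.le
  have h7 : (E₀ / (c * M) + k) / (w / 2) ≤ N := hN₁.trans (by exact_mod_cast hN2)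
  rw [div_le_iff₀ (by positivity)] at h7
  push_cast at hQ5
  have h8 : (k * Q : ℝ) * (3 * w / 8) ≤ N * (3 * w / 8) := mul_le_mul_of_nonneg_right hQ5 (by positivity)
  have hN0 : (0 : ℝ) ≤ N := Nat.cast_nonneg _
  nlinarith

end Pool.Agent.N915.WT
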