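import Pool.Agent.N915.WT.Main

/-! # Consequences -/

set_option autoImplicit false

namespace Pool.Agent.N915.WT

open Finset Filter Topology IntermediateField
open Pool.Agent.H534R3.UDist Pool.Agent.H534R3.Rota
open scoped Real

/-- lower density at least `1 / b ^ l` -/
def LowerGe (b l a : ℕ) (x : ℝ) : Prop :=
  ∀ ε : ℝ, 0 < ε → ∀ᶠ N : ℕ in atTop, (1 / (b : ℝ) ^ l - ε) * N ≤ (occ b l a x N : ℝ)

/-- upper density at most `1 / b ^ l` -/
def UpperLe (b l a : ℕ) (x : ℝ) : Prop :=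
  ∀ ε : ℝ, 0 < ε → ∀ᶠ N : ℕ in atTop, (occ b l a x N : ℝ) ≤ (1 / (b : ℝ) ^ l + ε) * N

lemma not_rare {b l a : ℕ} {x τ : ℝ} (h : LowerGe b l a x) (hτ : 0 < τ) : ¬ Rare b l a τ x := by
  intro hr
  obtain ⟨N, h1, h2, h3⟩ := (hr.and_eventually ((h (τ / 2) (by positivity)).and
    (eventually_gt_atTop 0))).exists
  have hN : (0 : ℝ) < N := by exact_mod_cast h3
  nlinarith

lemma not_abundant {b l a : ℕ} {x τ : ℝ} (h : UpperLe b l a x) (hτ : 0 < τ) :
    ¬ Abundant b l a τ x := by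
  intro hr
  obtain ⟨N, h1, h2, h3⟩ := (hr.and_eventually ((h (τ / 2) (by positivity)).and
    (eventually_gt_atTop 0))).exists
  have hN : (0 : ℝ) < N := by exact_mod_cast h3
  nlinarith

lemma isNormal_of {b : ℕ} {x : ℝ} (h : ∀ η : ℝ, 0 < η → NormalUpTo b η x) : IsNormal b x := by
  intro s t h0 h1 h2
  rw [Metric.tendsto_atTop]
  intro ε hε
  obtain ⟨N₀, hN₀⟩ := eventually_atTop.1 ((h (ε / 2) (by positivity)).and (eventually_gt_atTop 0))
  refine ⟨N₀, fun N hN => ?_⟩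
  obtain ⟨h3, h4⟩ := hN₀ N hN
  have hN0 : (0 : ℝ) < N := by exact_mod_cast h4
  have h5 := h3 s t h0 h1 h2
  have e1 : (visits b x s t N : ℝ) / N - (t - s) = ((visits b x s t N : ℝ) - (t - s) * N) / N := by
    field_simp
  rw [Real.dist_eq, e1, abs_div, abs_of_pos hN0, div_lt_iff₀ hN0]
  nlinarith

lemma normal_of_lower {b l a : ℕ} (hb : 2 ≤ b) (hl : 1 ≤ l) (ha : a < b ^ l) {x : ℝ}
    (h : ∀ r : ℚ, LowerGe b l a (x + r)) : IsNormal b x := by
  classical
  refine isNormal_of fun η hη => ?_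
  obtain ⟨c, hc, k₀, hk₀, hm⟩ := main hb hl ha η hη
  refine hm x k₀ le_rfl (Or.inl ?_)
  have hk : (0 : ℝ) < k₀ := by exact_mod_cast hk₀
  rw [card_eq_zero.2 (filter_eq_empty_iff.2 fun p _ => ?_)]
  · push_cast
    positivity
  · have h1 := h (p / ((b : ℚ) ^ k₀ - 1))
    push_cast at h1
    exact not_rare h1 (by positivity)

lemma normal_of_upper {b l a : ℕ} (hb : 2 ≤ b) (hl : 1 ≤ l) (ha : a < b ^ l) {x : ℝ}
    (h : ∀ r : ℚ, UpperLe b l a (x + r)) : IsNormal b x := by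
  classical
  refine isNormal_of fun η hη => ?_
  obtain ⟨c, hc, k₀, hk₀, hm⟩ := main hb hl ha η hη
  refine hm x k₀ le_rfl (Or.inr ?_)
  have hk : (0 : ℝ) < k₀ := by exact_mod_cast hk₀
  rw [card_eq_zero.2 (filter_eq_empty_iff.2 fun p _ => ?_)]
  · push_cast
    positivity
  · have h1 := h (p / ((b : ℚ) ^ k₀ - 1))
    push_cast at h1
    exact not_abundant h1 (by positivity)

/-- the two ways to count differ by at most one -/
lemma visits_cnt (b : ℕ) (x s t : ℝ) (N : ℕ) :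
    |(visits b x s t N : ℝ) - (((range N).filter fun n : ℕ => s ≤ Int.fract ((b : ℝ) ^ n * x) ∧
      Int.fract ((b : ℝ) ^ n * x) < t).card : ℝ)| ≤ 1 := by
  classical
  set f : ℕ → ℝ := fun n => if s ≤ Int.fract ((b : ℝ) ^ n * x) ∧ Int.fract ((b : ℝ) ^ n * x) < t
    then 1 else 0 with hf
  have h0 : ∀ n, 0 ≤ f n := by
    intro n
    simp only [hf]
    split_ifs <;> norm_num
  have h1 : ∀ n, f n ≤ 1 := by
    intro n
    simp only [hf]
    split_ifs <;> norm_num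
  have e1 : (visits b x s t N : ℝ) = ∑ n ∈ Icc 1 N, f n := by
    unfold visits
    rw [card_filter]
    push_cast
    refine sum_congr rfl fun n _ => ?_
    simp only [hf]
    rw [mul_comm x]
  have e2 : (((range N).filter fun n : ℕ => s ≤ Int.fract ((b : ℝ) ^ n * x) ∧
      Int.fract ((b : ℝ) ^ n * x) < t).card : ℝ) = ∑ n ∈ range N, f n := by
    rw [card_filter]
    push_cast
    rfl
  have e3 : ∑ n ∈ Icc 1 N, f n = ∑ n ∈ range (N + 1), f n - f 0 := by
    rw [sum_range_succ', add_sub_cancel_right]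
    rw [← Finset.sum_image (f := f) (s := range N)
      (g := fun n => n + 1) (by intro a _ b _ h; simpa using h)]
    refine sum_congr ?_ fun _ _ => rfl
    ext n
    simp only [mem_Icc, mem_image, mem_range]
    constructor
    · rintro ⟨h1, h2⟩
      exact ⟨n - 1, by omega, by omega⟩
    · rintro ⟨m, h1, rfl⟩
      omega
  rw [e1, e2, e3, sum_range_succ, abs_le]
  constructor <;> linarith [h0 0, h1 0, h0 N, h1 N]

lemma tendsto_transfer {u v : ℕ → ℝ} {L : ℝ} (h : ∀ N, |u N - v N| ≤ 1)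
    (hv : Tendsto (fun N : ℕ => v N / (N : ℝ)) atTop (𝓝 L)) :
    Tendsto (fun N : ℕ => u N / (N : ℝ)) atTop (𝓝 L) := by
  have h1 : Tendsto (fun N : ℕ => (u N - v N) / (N : ℝ)) atTop (𝓝 0) := by
    refine squeeze_zero_norm (a := fun N : ℕ => 1 / (N : ℝ)) (fun N => ?_)
      tendsto_one_div_atTop_nhds_zero_nat
    rw [Real.norm_eq_abs, abs_div, Nat.abs_cast]
    exact div_le_div_of_nonneg_right (h N) (Nat.cast_nonneg _)
  have h2 := hv.add h1
  rw [add_zero] at h2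
  refine h2.congr fun N => ?_
  ring

lemma ud_of_isNormal {b : ℕ} {x : ℝ} (h : IsNormal b x) : UD fun n => (b : ℝ) ^ n * x := by
  intro s t h0 h1 h2
  rcases h1.lt_or_eq with h3 | h3
  · refine tendsto_transfer (fun N => ?_) (h s t h0 h3 h2)
    rw [abs_sub_comm]
    exact visits_cnt b x s t N
  · subst h3
    rw [sub_self]
    refine tendsto_const_nhds.congr fun N => ?_
    rw [filter_eq_empty_iff.2 (fun n _ h => absurd h.1 (not_le.2 h.2))]
    simp

lemma isNormal_of_ud {b : ℕ} {x : ℝ} (h : UD fun n => (b : ℝ) ^ n * x) : IsNormal b x :=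
  fun s t h0 h1 h2 => tendsto_transfer (fun N => visits_cnt b x s t N) (h s t h0 h1.le h2)

/-- Wall's theorem -/
theorem normal_affine {b : ℕ} (hb : 2 ≤ b) {x : ℝ} (h : IsNormal b x) (q r : ℚ) (hq : q ≠ 0) :
    IsNormal b (q * x + r) :=
  isNormal_of_ud (ud_of_weyl _ (wall hb (ud_of_isNormal h) q r hq))

lemma occ_tendsto {b l a : ℕ} (hb : 2 ≤ b) (ha : a < b ^ l) {x : ℝ} (h : IsNormal b x) :
    Tendsto (fun N : ℕ => (occ b l a x N : ℝ) / (N : ℝ)) atTop (𝓝 (1 / (b : ℝ) ^ l)) := by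
  have hbl : (0 : ℝ) < (b : ℝ) ^ l := by positivity
  have h1 := h ((a : ℝ) / (b : ℝ) ^ l) (((a : ℝ) + 1) / (b : ℝ) ^ l) (by positivity)
    (div_lt_div_of_pos_right (by linarith) hbl) (by
      rw [div_le_one hbl]
      exact_mod_cast ha)
  have e : ((a : ℝ) + 1) / (b : ℝ) ^ l - (a : ℝ) / (b : ℝ) ^ l = 1 / (b : ℝ) ^ l := by ring
  rw [e] at h1
  exact h1

lemma lower_of_normal {b l a : ℕ} (hb : 2 ≤ b) (ha : a < b ^ l) {x : ℝ} (h : IsNormal b x) :
    LowerGe b l a x := by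
  intro ε hε
  have h1 := (occ_tendsto hb ha h).eventually (lt_mem_nhds (by linarith : 1 / (b : ℝ) ^ l - ε < 1 / (b : ℝ) ^ l))
  filter_upwards [h1, eventually_gt_atTop 0] with N h2 h3
  have hN : (0 : ℝ) < N := by exact_mod_cast h3
  rw [lt_div_iff₀ hN] at h2
  exact h2.le

lemma upper_of_normal {b l a : ℕ} (hb : 2 ≤ b) (ha : a < b ^ l) {x : ℝ} (h : IsNormal b x) :
    UpperLe b l a x := by
  intro ε hε
  have h1 := (occ_tendsto hb ha h).eventually (gt_mem_nhds (by linarith : 1 / (b : ℝ) ^ l < 1 / (b : ℝ) ^ l + ε))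
  filter_upwards [h1, eventually_gt_atTop 0] with N h2 h3
  have hN : (0 : ℝ) < N := by exact_mod_cast h3
  rw [div_lt_iff₀ hN] at h2
  exact h2.le

lemma normal_translate {b : ℕ} (hb : 2 ≤ b) {x : ℝ} (h : IsNormal b x) (r : ℚ) : IsNormal b (x + r) := by
  have := normal_affine hb h 1 r one_ne_zero
  simpa using this

theorem iff_lower {b l a : ℕ} (hb : 2 ≤ b) (hl : 1 ≤ l) (ha : a < b ^ l) (x : ℝ) :
    IsNormal b x ↔ ∀ r : ℚ, LowerGe b l a (x + r) :=
  ⟨fun h r => lower_of_normal hb ha (normal_translate hb h r), normal_of_lower hb hl ha⟩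

theorem iff_upper {b l a : ℕ} (hb : 2 ≤ b) (hl : 1 ≤ l) (ha : a < b ^ l) (x : ℝ) :
    IsNormal b x ↔ ∀ r : ℚ, UpperLe b l a (x + r) :=
  ⟨fun h r => upper_of_normal hb ha (normal_translate hb h r), normal_of_upper hb hl ha⟩

lemma mem_add_rat (K : IntermediateField ℚ ℝ) {y : ℝ} (hy : y ∈ K) (r : ℚ) : y + r ∈ K :=
  K.add_mem hy (by simpa using K.algebraMap_mem r)

theorem field_lower {b l a : ℕ} (hb : 2 ≤ b) (hl : 1 ≤ l) (ha : a < b ^ l) (K : IntermediateField ℚ ℝ) :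
    (∀ y ∈ K, Irrational y → IsNormal b y) ↔ ∀ y ∈ K, Irrational y → LowerGe b l a y :=
  ⟨fun h y hy hi => lower_of_normal hb ha (h y hy hi), fun h y hy hi =>
    normal_of_lower hb hl ha fun r => h _ (mem_add_rat K hy r) (hi.add_ratCast r)⟩

theorem field_upper {b l a : ℕ} (hb : 2 ≤ b) (hl : 1 ≤ l) (ha : a < b ^ l) (K : IntermediateField ℚ ℝ) :
    (∀ y ∈ K, Irrational y → IsNormal b y) ↔ ∀ y ∈ K, Irrational y → UpperLe b l a y :=
  ⟨fun h y hy hi => upper_of_normal hb ha (h y hy hi), fun h y hy hi =>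
    normal_of_upper hb hl ha fun r => h _ (mem_add_rat K hy r) (hi.add_ratCast r)⟩

lemma quadratic_mem {α : ℝ} (hdeg : (minpoly ℚ α).natDegree = 2) {y : ℝ} (hy : y ∈ ℚ⟮α⟯) :
    ∃ q r : ℚ, y = q * α + r := by
  have hint : IsIntegral ℚ α := by
    by_contra h
    rw [minpoly.eq_zero h] at hdeg
    simp at hdeg
  have h1 : y ∈ (ℚ⟮α⟯).toSubalgebra := hy
  rw [IntermediateField.adjoin_simple_toSubalgebra_of_isAlgebraic hint.isAlgebraic,
    Algebra.adjoin_singleton_eq_range_aeval] at h1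
  obtain ⟨p, hp⟩ := h1
  have hmon := minpoly.monic hint
  have h2 : Polynomial.aeval α (p %ₘ minpoly ℚ α) = y := by
    rw [← hp]
    have h3 := Polynomial.modByMonic_add_div p (minpoly ℚ α)
    conv_rhs => rw [← h3]
    simp
  have h4 : (p %ₘ minpoly ℚ α).natDegree < 2 := by
    rw [← hdeg]
    apply Polynomial.natDegree_modByMonic_lt _ hmon
    intro h
    rw [h] at hdeg
    simp at hdeg
  refine ⟨(p %ₘ minpoly ℚ α).coeff 1, (p %ₘ minpoly ℚ α).coeff 0, ?_⟩
  rw [← h2, Polynomial.aeval_eq_sum_range' h4, sum_range_succ, sum_range_one]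
  simp only [pow_zero, pow_one, Algebra.smul_def, mul_one]
  simp only [eq_ratCast]
  ring

theorem quadratic {b l a : ℕ} (hb : 2 ≤ b) (hl : 1 ≤ l) (ha : a < b ^ l) {α : ℝ}
    (hdeg : (minpoly ℚ α).natDegree = 2) :
    (IsNormal b α ↔ ∀ y ∈ ℚ⟮α⟯, Irrational y → LowerGe b l a y) := by
  have hirr : Irrational α := by
    rintro ⟨q, rfl⟩
    have : minpoly ℚ ((q : ℚ) : ℝ) = Polynomial.X - Polynomial.C q := by
      have := minpoly.eq_X_sub_C (A := ℚ) (B := ℝ) q
      simpa using this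
    rw [this, Polynomial.natDegree_X_sub_C] at hdeg
    omega
  constructor
  · intro h y hy hi
    obtain ⟨q, r, rfl⟩ := quadratic_mem hdeg hy
    refine lower_of_normal hb ha (normal_affine hb h q r ?_)
    rintro rfl
    apply hi
    exact ⟨r, by simp⟩
  · intro h
    refine normal_of_lower hb hl ha fun r => h _ (mem_add_rat _ (mem_adjoin_simple_self ℚ α) r)
      (hirr.add_ratCast r)

end Pool.Agent.N915.WT
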