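import Pool.Agent.N915.WT.SecondB

/-! # The fourth moment of the weights -/

set_option autoImplicit false

namespace Pool.Agent.N915.WT

open Finset Filter Topology
open Pool.Agent.H534R3.UDist Pool.Agent.H534R3.Rota
open scoped Real

lemma pow_add_unique {b : ℕ} (hb : 2 ≤ b) {i j i' j' : ℕ} (h : b ^ i + b ^ j = b ^ i' + b ^ j') :
    (i' = i ∧ j' = j) ∨ (i' = j ∧ j' = i) := by
  have key : ∀ i j i' j' : ℕ, i ≤ j → i' ≤ j' → b ^ i + b ^ j = b ^ i' + b ^ j' → ¬ i < i' := by
    intro i j i' j' h1 h2 h3 h4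
    have h5 : b ^ (i + 1) ∣ b ^ i + b ^ j := by
      rw [h3]
      exact dvd_add (pow_dvd_pow b (by omega)) (pow_dvd_pow b (by omega))
    rcases Nat.lt_or_ge i j with h6 | h6
    · have h7 : b ^ (i + 1) ∣ b ^ i := (Nat.dvd_add_left (pow_dvd_pow b h6)).1 h5
      have h8 := Nat.le_of_dvd (by positivity) h7
      have h9 : b ^ i < b ^ (i + 1) := Nat.pow_lt_pow_right (by omega) (by omega)
      omega
    · have h7 : i = j := by omega
      subst h7
      have h8 : b ^ (i + 1) ≤ b ^ i' := Nat.pow_le_pow_right (by omega) (by omega)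
      have h9 : b ^ (i + 1) ≤ b ^ j' := Nat.pow_le_pow_right (by omega) (by omega)
      have h10 : b ^ i < b ^ (i + 1) := Nat.pow_lt_pow_right (by omega) (by omega)
      omega
  have key2 : ∀ i j i' j' : ℕ, i ≤ j → i' ≤ j' → b ^ i + b ^ j = b ^ i' + b ^ j' → i' = i ∧ j' = j := by
    intro i j i' j' h1 h2 h3
    have h4 := key i j i' j' h1 h2 h3
    have h5 := key i' j' i j h2 h1 h3.symm
    have h6 : i = i' := by omega
    subst h6
    have h7 : b ^ j = b ^ j' := by omega
    exact ⟨rfl, (Nat.pow_right_injective hb h7).symm⟩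
  rcases le_total i j with h1 | h1 <;> rcases le_total i' j' with h2 | h2
  · exact Or.inl (key2 i j i' j' h1 h2 h)
  · have := key2 i j j' i' h1 h2 (by omega)
    exact Or.inr ⟨this.2, this.1⟩
  · have := key2 j i i' j' h1 h2 (by omega)
    exact Or.inr this
  · have := key2 j i j' i' h1 h2 (by omega)
    exact Or.inl ⟨this.2, this.1⟩

lemma sum_ee_int {M : ℕ} (g : ℤ) (hg : |g| < M) :
    ∑ p ∈ range M, ee (g * ((p : ℝ) / M)) = if g = 0 then (M : ℂ) else 0 := by
  by_cases h0 : g = 0
  · rw [if_pos h0, h0]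
    simp [ee_zero]
  · rw [if_neg h0]
    obtain ⟨m, rfl | rfl⟩ := g.eq_nat_or_neg
    · have hm : 1 ≤ m := by
        have : m ≠ 0 := by exact_mod_cast h0
        omega
      have hm2 : m < M := by
        rw [abs_of_nonneg (by positivity)] at hg
        exact_mod_cast hg
      exact_mod_cast sum_ee_zero m M hm hm2
    · have hm : 1 ≤ m := by
        have : m ≠ 0 := by
          intro h
          apply h0
          rw [h]
          rfl
        omega
      have hm2 : m < M := by
        rw [abs_neg, abs_of_nonneg (by positivity)] at hg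
        exact_mod_cast hg
      have h2 := sum_ee_frac hm hm2
      rw [← h2]
      refine sum_congr rfl fun p _ => ?_
      congr 1
      push_cast
      ring

/-- the weights -/
noncomputable def wt (b s M h p : ℕ) : ℂ := ∑ i ∈ range h, ee (-(s * (b ^ i * ((p : ℝ) / M))))

lemma fourth {b s M h : ℕ} (hb : 2 ≤ b) (hs : 1 ≤ s) (hM : 0 < M) (hh : 2 * s * b ^ h ≤ M) :
    ∑ p ∈ range M, ‖wt b s M h p‖ ^ 4 ≤ 2 * M * h ^ 2 := by
  set R := (range h) ×ˢ (range h) with hR
  set c : ℕ × ℕ → ℤ := fun u => s * (b ^ u.1 + b ^ u.2) with hc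
  have hcb : ∀ u ∈ R, 0 ≤ c u ∧ c u < M := by
    intro u hu
    rw [hR, mem_product, mem_range, mem_range] at hu
    refine ⟨by positivity, ?_⟩
    have h1 : b ^ u.1 < b ^ h := Nat.pow_lt_pow_right (by omega) hu.1
    have h2 : b ^ u.2 < b ^ h := Nat.pow_lt_pow_right (by omega) hu.2
    have h3 : s * (b ^ u.1 + b ^ u.2) < s * (2 * b ^ h) := by
      apply Nat.mul_lt_mul_of_pos_left (by omega) (by omega)
    have h4 : s * (b ^ u.1 + b ^ u.2) < M := by
      calc _ < s * (2 * b ^ h) := h3
        _ = 2 * s * b ^ h := by ring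
        _ ≤ M := hh
    simp only [hc]
    exact_mod_cast h4
  have e1 : ∀ p, wt b s M h p ^ 2 = ∑ u ∈ R, ee (-(c u * ((p : ℝ) / M))) := by
    intro p
    rw [sq, wt, sum_mul_sum, hR, sum_product]
    refine sum_congr rfl fun i _ => sum_congr rfl fun j _ => ?_
    rw [← ee_add]
    congr 1
    simp only [hc]
    push_cast
    ring
  have e2 : ((∑ p ∈ range M, ‖wt b s M h p‖ ^ 4 : ℝ) : ℂ) =
      ∑ u ∈ R, ∑ v ∈ R, if c u = c v then (M : ℂ) else 0 := by
    have e3 : ∀ p ∈ range M, ((‖wt b s M h p‖ ^ 4 : ℝ) : ℂ) =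
        ∑ u ∈ R, ∑ v ∈ R, ee (((c v - c u : ℤ) : ℝ) * ((p : ℝ) / M)) := by
      intro p _
      have e4 : ((‖wt b s M h p‖ ^ 4 : ℝ) : ℂ) =
          wt b s M h p ^ 2 * (starRingEnd ℂ) (wt b s M h p ^ 2) := by
        rw [Complex.mul_conj, Complex.normSq_eq_norm_sq, norm_pow]
        push_cast
        ring
      rw [e4, e1, map_sum, sum_mul_sum]
      refine sum_congr rfl fun u _ => sum_congr rfl fun v _ => ?_
      rw [← ee_neg, ← ee_add]
      congr 1
      push_cast
      ring
    rw [Complex.ofReal_sum, sum_congr rfl e3, sum_comm]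
    refine sum_congr rfl fun u hu => ?_
    rw [sum_comm]
    refine sum_congr rfl fun v hv => ?_
    rw [sum_ee_int (c v - c u) (by
      have h1 := hcb u hu
      have h2 := hcb v hv
      rw [abs_lt]
      constructor <;> linarith [h1.1, h1.2, h2.1, h2.2])]
    by_cases h : c u = c v
    · rw [if_pos h, if_pos (by rw [h, sub_self])]
    · rw [if_neg h, if_neg (fun h2 => h (by linarith))]
  have e3 : ((∑ p ∈ range M, ‖wt b s M h p‖ ^ 4 : ℝ) : ℂ) =
      ((∑ u ∈ R, ∑ v ∈ R, if c u = c v then (M : ℝ) else 0 : ℝ) : ℂ) := by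
    rw [e2]
    push_cast
    refine sum_congr rfl fun u _ => sum_congr rfl fun v _ => ?_
    split_ifs <;> simp
  have e4 := Complex.ofReal_injective e3
  rw [e4]
  have h1 : ∀ u ∈ R, ∑ v ∈ R, (if c u = c v then (M : ℝ) else 0) ≤ 2 * M := by
    intro u _
    rw [← sum_filter, sum_const, nsmul_eq_mul]
    refine mul_le_mul_of_nonneg_right ?_ (Nat.cast_nonneg _)
    have h2 : R.filter (fun v => c u = c v) ⊆ {u, (u.2, u.1)} := by
      intro v hv
      rw [mem_filter] at hv
      have h3 : b ^ u.1 + b ^ u.2 = b ^ v.1 + b ^ v.2 := by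
        have h4 := hv.2
        simp only [hc] at h4
        have h5 : (s : ℤ) ≠ 0 := by exact_mod_cast (by omega : s ≠ 0)
        have h6 := mul_left_cancel₀ h5 h4
        exact_mod_cast h6
      rw [mem_insert, mem_singleton]
      rcases pow_add_unique hb h3 with ⟨h4, h5⟩ | ⟨h4, h5⟩
      · left
        exact Prod.ext h4 h5
      · right
        exact Prod.ext h4 h5
    have h3 := card_le_card h2
    have h4 : ({u, (u.2, u.1)} : Finset (ℕ × ℕ)).card ≤ 2 := card_le_two
    exact_mod_cast h3.trans h4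
  refine (sum_le_sum h1).trans (le_of_eq ?_)
  rw [sum_const, nsmul_eq_mul, hR, card_product, card_range]
  push_cast
  ring

end Pool.Agent.N915.WT
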