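import Pool.Agent.N915.WT.Few
import Pool.Agent.N915.WT.Wall
import Pool.Agent.R485.Trans.Saw

/-! # Normality and the frequency of one word in the rational translates -/

set_option autoImplicit false

namespace Pool.Agent.N915.WT

open Finset Filter Topology
open Pool.Agent.H534R3.UDist Pool.Agent.H534R3.Rota
open scoped Real

/-- the number of `1 ≤ n ≤ N` such that the fractional part of `x b ^ n` is in `[s, t)` -/
noncomputable def visits (b : ℕ) (x s t : ℝ) (N : ℕ) : ℕ :=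
  ((Icc 1 N).filter fun n : ℕ => s ≤ Int.fract (x * (b : ℝ) ^ n) ∧ Int.fract (x * (b : ℝ) ^ n) < t).card

/-- the number of occurrences of the word with value `a` -/
noncomputable def occ (b l a : ℕ) (x : ℝ) (N : ℕ) : ℕ :=
  visits b x ((a : ℝ) / (b : ℝ) ^ l) (((a : ℝ) + 1) / (b : ℝ) ^ l) N

def IsNormal (b : ℕ) (x : ℝ) : Prop := ∀ s t : ℝ, 0 ≤ s → s < t → t ≤ 1 →
  Tendsto (fun N : ℕ => (visits b x s t N : ℝ) / (N : ℝ)) atTop (𝓝 (t - s))

def NormalUpTo (b : ℕ) (η x : ℝ) : Prop := ∀ᶠ N : ℕ in atTop, ∀ s t : ℝ, 0 ≤ s → s < t → t ≤ 1 →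
  |(visits b x s t N : ℝ) - (t - s) * N| ≤ η * N

def Rare (b l a : ℕ) (τ x : ℝ) : Prop :=
  ∃ᶠ N : ℕ in atTop, (occ b l a x N : ℝ) ≤ (1 / (b : ℝ) ^ l - τ) * N

def Abundant (b l a : ℕ) (τ x : ℝ) : Prop :=
  ∃ᶠ N : ℕ in atTop, (1 / (b : ℝ) ^ l + τ) * N ≤ (occ b l a x N : ℝ)

lemma occ_eq (b l a : ℕ) (x : ℝ) (N : ℕ) :
    (occ b l a x N : ℝ) = ∑ n ∈ Icc 1 N, ind (b ^ l) a (b ^ n * x) := by
  unfold occ visits ind
  rw [card_filter]
  push_cast
  refine sum_congr rfl fun n _ => ?_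
  rw [mul_comm x]

lemma occ_Sw (b l a : ℕ) (x : ℝ) (N : ℕ) :
    |(occ b l a x N : ℝ) - Sw b (b ^ l) a x N| ≤ 1 := by
  rw [occ_eq]
  have h1 : ∑ n ∈ Icc 1 N, ind (b ^ l) a (b ^ n * x) =
      ∑ n ∈ range (N + 1), ind (b ^ l) a (b ^ n * x) - ind (b ^ l) a (b ^ 0 * x) := by
    rw [sum_range_succ', add_sub_cancel_right]
    rw [← Finset.sum_image (f := fun n => ind (b ^ l) a ((b : ℝ) ^ n * x)) (s := range N)
      (g := fun n => n + 1) (by intro a _ b _ h; simpa using h)]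
    refine sum_congr ?_ fun _ _ => rfl
    ext n
    simp only [mem_Icc, mem_image, mem_range]
    constructor
    · rintro ⟨h1, h2⟩
      exact ⟨n - 1, by omega, by omega⟩
    · rintro ⟨m, h1, rfl⟩
      omega
  rw [h1, sum_range_succ]
  unfold Sw
  have g1 := ind_nonneg (b ^ l) a (b ^ 0 * x)
  have g2 := ind_le_one (b ^ l) a (b ^ 0 * x)
  have g3 := ind_nonneg (b ^ l) a (b ^ N * x)
  have g4 := ind_le_one (b ^ l) a (b ^ N * x)
  rw [abs_le]
  constructor <;> linarith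

lemma Dev_rare {b l a : ℕ} {τ z : ℝ} (hτ : 0 < τ) (h : Dev 1 b l a (2 * τ) z) : Rare b l a τ z := by
  obtain ⟨N₀, hN₀⟩ := exists_nat_ge (1 / τ)
  refine (h.and_eventually (eventually_ge_atTop N₀)).mono fun N hN => ?_
  obtain ⟨h1, h2⟩ := hN
  have h3 : 1 / τ ≤ N := hN₀.trans (by exact_mod_cast h2)
  rw [div_le_iff₀ hτ] at h3
  have h4 := (abs_le.1 (occ_Sw b l a z N)).2
  rw [one_mul] at h1
  have h5 : (N : ℝ) / (b ^ l : ℕ) = 1 / (b : ℝ) ^ l * N := by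
    push_cast
    ring
  rw [h5] at h1
  nlinarith

lemma Dev_abundant {b l a : ℕ} {τ z : ℝ} (hτ : 0 < τ) (h : Dev (-1) b l a (2 * τ) z) :
    Abundant b l a τ z := by
  obtain ⟨N₀, hN₀⟩ := exists_nat_ge (1 / τ)
  refine (h.and_eventually (eventually_ge_atTop N₀)).mono fun N hN => ?_
  obtain ⟨h1, h2⟩ := hN
  have h3 : 1 / τ ≤ N := hN₀.trans (by exact_mod_cast h2)
  rw [div_le_iff₀ hτ] at h3
  have h4 := (abs_le.1 (occ_Sw b l a z N)).1
  have h5 : (N : ℝ) / (b ^ l : ℕ) = 1 / (b : ℝ) ^ l * N := by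
    push_cast
    ring
  rw [h5] at h1
  nlinarith

lemma Dev_anti {σ : ℝ} {b l a : ℕ} {τ τ' z : ℝ} (hτ : τ' ≤ τ) (h : Dev σ b l a τ z) :
    Dev σ b l a τ' z := by
  refine h.mono fun N hN => hN.trans ?_
  have : (0 : ℝ) ≤ N := Nat.cast_nonneg N
  nlinarith

open Classical in
/-- the statement about one frequency -/
def Good (b l a h : ℕ) (w c : ℝ) (k₀ : ℕ) : Prop :=
  ∀ k : ℕ, k₀ ≤ k → ∀ M : ℕ, M + 1 = b ^ k → ∀ σ : ℝ, |σ| = 1 → ∀ y : ℝ,
    (((range M).filter fun p : ℕ => Dev σ b l a (2 * (c / √k)) (y + p / M)).card : ℝ) < c * b ^ k →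
      ∀ᶠ N : ℕ in atTop, ‖W b h y N‖ ≤ w * N

lemma Good_mono {b l a h : ℕ} {w c c' : ℝ} {k₀ k₀' : ℕ} (hc : c' ≤ c) (hk : k₀ ≤ k₀')
    (hG : Good b l a h w c k₀) : Good b l a h w c' k₀' := by
  classical
  intro k hk' M hM σ hσ y hy
  refine hG k (hk.trans hk') M hM σ hσ y (lt_of_le_of_lt ?_ (hy.trans_le ?_))
  · have h1 : ((range M).filter fun p : ℕ => Dev σ b l a (2 * (c / √k)) (y + p / M)) ⊆
        ((range M).filter fun p : ℕ => Dev σ b l a (2 * (c' / √k)) (y + p / M)) := by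
      intro p hp
      rw [mem_filter] at hp ⊢
      refine ⟨hp.1, Dev_anti ?_ hp.2⟩
      gcongr
    exact_mod_cast card_le_card h1
  · gcongr

lemma Good_exists {b l a : ℕ} (hb : 2 ≤ b) (hl : 1 ≤ l) (ha : a < b ^ l) (h : ℕ) (hh : 1 ≤ h)
    (w : ℝ) (hw : 0 < w) : ∃ c : ℝ, 0 < c ∧ ∃ k₀ : ℕ, 1 ≤ k₀ ∧ Good b l a h w c k₀ := by
  classical
  obtain ⟨θ, hθ, k₀, hk₀, hG⟩ := few hb hl ha h hh w hw
  refine ⟨min (θ / 2) (θ ^ 2 / 2), by positivity, k₀, hk₀, fun k hk M hM σ hσ y hy => ?_⟩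
  refine hG k hk M hM σ hσ y ?_
  set c := min (θ / 2) (θ ^ 2 / 2) with hc
  have hc1 : c ≤ θ / 2 := min_le_left _ _
  have hc2 : c ≤ θ ^ 2 / 2 := min_le_right _ _
  have h1 : ((range M).filter fun p : ℕ => Dev σ b l a (θ / √k) (y + p / M)) ⊆
      ((range M).filter fun p : ℕ => Dev σ b l a (2 * (c / √k)) (y + p / M)) := by
    intro p hp
    rw [mem_filter] at hp ⊢
    refine ⟨hp.1, Dev_anti ?_ hp.2⟩
    rw [← mul_div_assoc]
    gcongr
    linarith
  have h2 := card_le_card h1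
  have h3 : (((range M).filter fun p : ℕ => Dev σ b l a (θ / √k) (y + p / M)).card : ℝ) ≤
      (((range M).filter fun p : ℕ => Dev σ b l a (2 * (c / √k)) (y + p / M)).card : ℝ) := by
    exact_mod_cast h2
  have hk1 : 1 ≤ k := hk₀.trans hk
  have hM1 : 1 ≤ M := by
    have : 2 ^ 1 ≤ b ^ k := (Nat.pow_le_pow_left hb 1).trans (Nat.pow_le_pow_right (by omega) hk1)
    omega
  have hM1R : (1 : ℝ) ≤ M := by exact_mod_cast hM1
  have h4 : (b : ℝ) ^ k = M + 1 := by exact_mod_cast hM.symm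
  rw [h4] at hy
  have h5 : c * ((M : ℝ) + 1) ≤ θ ^ 2 / 2 * (2 * M) := by
    have : 0 < c := by positivity
    gcongr
    linarith
  linarith

lemma Good_all {b l a : ℕ} (hb : 2 ≤ b) (hl : 1 ≤ l) (ha : a < b ^ l) (w : ℝ) (hw : 0 < w) (K : ℕ) :
    ∃ c : ℝ, 0 < c ∧ ∃ k₀ : ℕ, 1 ≤ k₀ ∧ ∀ h : ℕ, 1 ≤ h → h ≤ K → Good b l a h w c k₀ := by
  induction K with
  | zero => exact ⟨1, one_pos, 1, le_rfl, fun h h1 h2 => by omega⟩
  | succ K ih =>
    obtain ⟨c, hc, k₀, hk₀, h1⟩ := ih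
    obtain ⟨c', hc', k₀', hk₀', h2⟩ := Good_exists hb hl ha (K + 1) (by omega) w hw
    refine ⟨min c c', by positivity, max k₀ k₀', by omega, fun h h3 h4 => ?_⟩
    rcases Nat.lt_or_ge h (K + 1) with h5 | h5
    · exact Good_mono (min_le_left _ _) (le_max_left _ _) (h1 h h3 (by omega))
    · have : h = K + 1 := by omega
      subst this
      exact Good_mono (min_le_right _ _) (le_max_right _ _) h2

open Pool.Agent.H469R2.NK (e norm_e e_add e_zero conj_e) in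
open Pool.Agent.R485.Trans (saw_bound indicator_eq) in
/-- discrepancy and exponential sums -/
lemma disc_bound (b : ℕ) (x : ℝ) (N K : ℕ) (hK : 1 ≤ K) (T : ℝ)
    (hT : ∀ h : ℕ, 1 ≤ h → h ≤ K → ‖∑ n ∈ Icc 1 N, ee (h * (x * (b : ℝ) ^ n))‖ ≤ T) (α β : ℝ)
    (h0 : 0 ≤ α) (h1 : α < β) (h2 : β ≤ 1) :
    |(visits b x α β N : ℝ) - (β - α) * N| ≤ 2 * (K * T + 2 * N / √K) := by
  classical
  have hKR : (1 : ℝ) ≤ K := by exact_mod_cast hK
  have hK0 : (0 : ℝ) < K := by linarith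
  have hT0 : 0 ≤ T := (norm_nonneg _).trans (hT 1 le_rfl hK)
  have hsq : (1 : ℝ) ≤ √K := by
    rw [show (1 : ℝ) = √1 by simp]
    exact Real.sqrt_le_sqrt hKR
  have hsq2 : √(K : ℝ) * √K = K := Real.mul_self_sqrt hK0.le
  have hee : ∀ t : ℝ, e t = ee t := by
    intro t
    unfold e ee
    congr 1
    push_cast
    ring
  have key : ∀ γ : ℝ, |∑ i ∈ Icc 1 N, (Int.fract (x * (b : ℝ) ^ i - γ) - 1 / 2)| ≤
      K * T + 2 * N / √K := by
    intro γ
    have h3 := saw_bound (Icc 1 N) (fun i => x * (b : ℝ) ^ i - γ) K hK (1 / √K) (by positivity)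
      (by rw [div_le_one (by positivity)]; exact hsq)
    refine h3.trans ?_
    have h4 : ∀ h ∈ Icc 1 K, ‖∑ i ∈ Icc 1 N, e (h * (x * (b : ℝ) ^ i - γ))‖ / h ≤ T := by
      intro h hh
      rw [mem_Icc] at hh
      have h5 : ∑ i ∈ Icc 1 N, e (h * (x * (b : ℝ) ^ i - γ)) =
          e (-(h * γ)) * ∑ i ∈ Icc 1 N, ee (h * (x * (b : ℝ) ^ i)) := by
        rw [mul_sum]
        refine sum_congr rfl fun i _ => ?_
        rw [← hee, ← e_add]
        congr 1
        ring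
      rw [h5, norm_mul, norm_e, one_mul]
      have h6 : (1 : ℝ) ≤ h := by exact_mod_cast hh.1
      rw [div_le_iff₀ (by linarith)]
      have h7 := hT h hh.1 hh.2
      nlinarith
    have h6 : ∑ h ∈ Icc 1 K, ‖∑ i ∈ Icc 1 N, e (h * (x * (b : ℝ) ^ i - γ))‖ / h ≤ K * T := by
      refine (sum_le_sum h4).trans (le_of_eq ?_)
      rw [sum_const, Nat.card_Icc, Nat.add_sub_cancel, nsmul_eq_mul]
    have hc : (((Icc 1 N).card : ℕ) : ℝ) = N := by rw [Nat.card_Icc, Nat.add_sub_cancel]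
    rw [hc]
    have h7 : (N : ℝ) / (K * (1 / √K)) = N / √K := by
      congr 1
      nth_rewrite 1 [← hsq2]
      field_simp
    have h8 : (N : ℝ) * (1 / √K) = N / √K := by ring
    rw [h7, h8]
    have h9 : 2 * (N : ℝ) / √K = N / √K + N / √K := by ring
    linarith
  have h3 : (visits b x α β N : ℝ) - (β - α) * N =
      ∑ i ∈ Icc 1 N, (Int.fract (x * (b : ℝ) ^ i - β) - 1 / 2) -
        ∑ i ∈ Icc 1 N, (Int.fract (x * (b : ℝ) ^ i - α) - 1 / 2) := by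
    rw [← sum_sub_distrib]
    rw [← sum_congr rfl fun i _ => indicator_eq (x * (b : ℝ) ^ i) α β h0 h1 h2]
    unfold visits
    rw [sum_sub_distrib, sum_const, card_filter]
    push_cast
    rw [Nat.card_Icc, Nat.add_sub_cancel, nsmul_eq_mul]
    ring
  rw [h3]
  refine (abs_sub _ _).trans ?_
  linarith [key α, key β]

open Classical in
/-- **Main theorem.** -/
theorem main {b l a : ℕ} (hb : 2 ≤ b) (hl : 1 ≤ l) (ha : a < b ^ l) (η : ℝ) (hη : 0 < η) :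
    ∃ c : ℝ, 0 < c ∧ ∃ k₀ : ℕ, 1 ≤ k₀ ∧ ∀ x : ℝ, ∀ k : ℕ, k₀ ≤ k →
      ((((range (b ^ k - 1)).filter fun p : ℕ =>
          Rare b l a (c / √k) (x + p / ((b : ℝ) ^ k - 1))).card : ℝ) < c * b ^ k ∨
        (((range (b ^ k - 1)).filter fun p : ℕ =>
          Abundant b l a (c / √k) (x + p / ((b : ℝ) ^ k - 1))).card : ℝ) < c * b ^ k) →
      NormalUpTo b η x := by
  obtain ⟨K, hK⟩ := exists_nat_gt (max 1 (64 / η ^ 2))
  have hK1 : (1 : ℝ) < K := lt_of_le_of_lt (le_max_left _ _) hK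
  have hK2 : 64 / η ^ 2 < K := lt_of_le_of_lt (le_max_right _ _) hK
  have hK0 : (0 : ℝ) < K := by linarith
  have hK1' : 1 ≤ K := by exact_mod_cast hK1.le
  set w : ℝ := η / (8 * K) with hw
  have hw0 : 0 < w := by positivity
  obtain ⟨c, hc, k₀, hk₀, hG⟩ := Good_all hb hl ha w hw0 K
  refine ⟨c, hc, k₀, hk₀, fun x k hk hor => ?_⟩
  have hk1 : 1 ≤ k := hk₀.trans hk
  have hkR : (0 : ℝ) < k := by exact_mod_cast hk1
  have hsk : 0 < √(k : ℝ) := Real.sqrt_pos.2 hkR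
  have hbk : 1 ≤ b ^ k := Nat.one_le_iff_ne_zero.2 (by positivity)
  obtain ⟨M, hM⟩ : ∃ M, M + 1 = b ^ k := ⟨b ^ k - 1, by omega⟩
  have hM' : b ^ k - 1 = M := by omega
  have hMR : (b : ℝ) ^ k - 1 = M := by
    have : (b : ℝ) ^ k = M + 1 := by exact_mod_cast hM.symm
    linarith
  rw [hM', hMR] at hor
  have hW : ∀ h : ℕ, 1 ≤ h → h ≤ K → ∀ᶠ N : ℕ in atTop, ‖W b h x N‖ ≤ w * N := by
    intro h h1 h2
    rcases hor with h3 | h3
    · refine hG h h1 h2 k hk M hM 1 (by simp) x (lt_of_le_of_lt ?_ h3)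
      have h4 : ((range M).filter fun p : ℕ => Dev 1 b l a (2 * (c / √k)) (x + p / M)) ⊆
          ((range M).filter fun p : ℕ => Rare b l a (c / √k) (x + p / M)) := by
        intro p hp
        rw [mem_filter] at hp ⊢
        exact ⟨hp.1, Dev_rare (by positivity) hp.2⟩
      exact_mod_cast card_le_card h4
    · refine hG h h1 h2 k hk M hM (-1) (by simp) x (lt_of_le_of_lt ?_ h3)
      have h4 : ((range M).filter fun p : ℕ => Dev (-1) b l a (2 * (c / √k)) (x + p / M)) ⊆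
          ((range M).filter fun p : ℕ => Abundant b l a (c / √k) (x + p / M)) := by
        intro p hp
        rw [mem_filter] at hp ⊢
        exact ⟨hp.1, Dev_abundant (by positivity) hp.2⟩
      exact_mod_cast card_le_card h4
  have hall : ∀ᶠ N : ℕ in atTop, ∀ h ∈ Icc 1 K, ‖W b h x N‖ ≤ w * N := by
    rw [eventually_all_finset]
    intro h hh
    rw [mem_Icc] at hh
    exact hW h hh.1 hh.2
  have hall2 : ∀ᶠ N : ℕ in atTop, ∀ h ∈ Icc 1 K, ‖W b h x (N + 1)‖ ≤ w * ((N + 1 : ℕ) : ℝ) :=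
    (tendsto_add_atTop_nat 1).eventually hall
  obtain ⟨N₁, hN₁⟩ := exists_nat_ge (2 * K * (w + 1) / (η / 4))
  filter_upwards [hall2, eventually_ge_atTop N₁] with N hN hN2 α β h0 h1 h2
  have h3 : 2 * K * (w + 1) / (η / 4) ≤ N := hN₁.trans (by exact_mod_cast hN2)
  rw [div_le_iff₀ (by positivity)] at h3
  have hT : ∀ h : ℕ, 1 ≤ h → h ≤ K → ‖∑ n ∈ Icc 1 N, ee (h * (x * (b : ℝ) ^ n))‖ ≤
      w * (N + 1) + 1 := by
    intro h h4 h5
    have h6 := hN h (mem_Icc.2 ⟨h4, h5⟩)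
    have e1 : ∑ n ∈ Icc 1 N, ee (h * (x * (b : ℝ) ^ n)) = W b h x (N + 1) - ee (h * ((b : ℝ) ^ 0 * x)) := by
      unfold W
      rw [sum_range_succ', add_sub_cancel_right]
      rw [← Finset.sum_image (f := fun n => ee (h * ((b : ℝ) ^ n * x))) (s := range N)
        (g := fun n => n + 1) (by intro a _ b _ h; simpa using h)]
      refine sum_congr ?_ fun n _ => by rw [mul_comm x]
      ext n
      simp only [mem_Icc, mem_image, mem_range]
      constructor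
      · rintro ⟨h1, h2⟩
        exact ⟨n - 1, by omega, by omega⟩
      · rintro ⟨m, h1, rfl⟩
        omega
    rw [e1]
    refine (norm_sub_le _ _).trans ?_
    rw [norm_ee]
    push_cast at h6
    linarith
  have h4 := disc_bound b x N K hK1' _ hT α β h0 h1 h2
  refine h4.trans ?_
  have hN0 : (0 : ℝ) ≤ N := Nat.cast_nonneg _
  have h5 : 2 * (K * (w * (N + 1) + 1)) ≤ η / 2 * N := by
    have h6 : 2 * (K * (w * (N + 1) + 1)) = 2 * K * w * N + 2 * K * (w + 1) := by ring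
    have h7 : 2 * K * w = η / 4 := by
      rw [hw]
      field_simp
      norm_num
    rw [h6, h7]
    linarith
  have h6 : 2 * (2 * N / √K) ≤ η / 2 * N := by
    have h7 : 8 / η ≤ √(K : ℝ) := by
      apply Real.le_sqrt_of_sq_le
      have : (8 / η) ^ 2 = 64 / η ^ 2 := by ring
      rw [this]
      exact hK2.le
    have hsK : 0 < √(K : ℝ) := Real.sqrt_pos.2 hK0
    have h8 : 2 * (2 * (N : ℝ) / √K) = 4 * N / √K := by ring
    rw [h8, div_le_iff₀ hsK]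
    rw [div_le_iff₀ hη] at h7
    nlinarith
  linarith

end Pool.Agent.N915.WT
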