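import Pool.Agent.N915.WT.Limit

/-! # The second moment of the deviations of the translates -/

set_option autoImplicit false

namespace Pool.Agent.N915.WT

open Finset Filter Topology
open Pool.Agent.H534R3.UDist Pool.Agent.H534R3.Rota
open scoped Real

/-- carries -/
lemma carry {τ : ℝ} (h0 : 0 ≤ τ) (h1 : τ ≤ 1) (x : ℝ) :
    (⌊x + τ⌋ = ⌊x⌋ ∧ Int.fract (x + τ) = Int.fract x + τ) ∨
      (⌊x + τ⌋ = ⌊x⌋ + 1 ∧ Int.fract (x + τ) = Int.fract x + τ - 1 ∧ Int.fract (x + τ) ≤ τ) := by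
  have g0 := Int.fract_nonneg x
  have g1 := Int.fract_lt_one x
  have g2 := Int.fract_add_floor x
  rcases lt_or_ge (Int.fract x + τ) 1 with h | h
  · left
    have e1 : ⌊x + τ⌋ = ⌊x⌋ := by
      rw [Int.floor_eq_iff]
      constructor <;> linarith
    refine ⟨e1, ?_⟩
    rw [Int.fract, e1]
    linarith
  · right
    have e1 : ⌊x + τ⌋ = ⌊x⌋ + 1 := by
      rw [Int.floor_eq_iff]
      push_cast
      constructor <;> linarith
    have e2 : Int.fract (x + τ) = Int.fract x + τ - 1 := by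
      rw [Int.fract, e1]
      push_cast
      linarith
    refine ⟨e1, e2, ?_⟩
    rw [e2]
    linarith

lemma saw_sum {τ : ℝ} (h0 : 0 < τ) (h1 : τ ≤ 1) (x : ℝ) (P : ℕ) :
    |∑ p ∈ range P, (Int.fract (x + p * τ) - 1 / 2)| ≤ 1 / (8 * τ) + 3 / 2 * P * τ + 1 := by
  -- the potential
  have hstep : ∀ P : ℕ, |τ * ∑ p ∈ range P, (Int.fract (x + p * τ) - 1 / 2) -
      ((Int.fract (x + P * τ) ^ 2 - Int.fract (x + P * τ)) / 2 -
        (Int.fract x ^ 2 - Int.fract x) / 2)| ≤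
      P * τ ^ 2 / 2 + τ * ((⌊x + P * τ⌋ : ℝ) - ⌊x⌋) := by
    intro P
    induction P with
    | zero => simp
    | succ P ih =>
      rw [sum_range_succ, mul_add]
      have e1 : x + ((P + 1 : ℕ) : ℝ) * τ = x + P * τ + τ := by
        push_cast
        ring
      rw [e1]
      set u := Int.fract (x + P * τ) with hu
      have hu0 : 0 ≤ u := Int.fract_nonneg _
      have hu1 : u < 1 := Int.fract_lt_one _
      set S₀ := ∑ p ∈ range P, (Int.fract (x + p * τ) - 1 / 2)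
      rcases carry h0.le h1 (x + P * τ) with ⟨h2, h3⟩ | ⟨h2, h3, h4⟩
      · rw [h2, h3]
        have e2 : τ * S₀ + τ * (u - 1 / 2) - (((u + τ) ^ 2 - (u + τ)) / 2 -
            (Int.fract x ^ 2 - Int.fract x) / 2) =
            (τ * S₀ - ((u ^ 2 - u) / 2 - (Int.fract x ^ 2 - Int.fract x) / 2)) + (-(τ ^ 2 / 2)) := by
          ring
        rw [e2]
        refine (abs_add_le _ _).trans ?_
        rw [abs_neg, abs_of_nonneg (by positivity : 0 ≤ τ ^ 2 / 2)]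
        push_cast
        linarith
      · rw [h2, h3]
        have h5 : u + τ - 1 ≤ τ := by linarith
        have h6 : 0 ≤ u + τ - 1 := by
          rw [← h3]
          exact Int.fract_nonneg _
        have e2 : τ * S₀ + τ * (u - 1 / 2) - (((u + τ - 1) ^ 2 - (u + τ - 1)) / 2 -
            (Int.fract x ^ 2 - Int.fract x) / 2) =
            (τ * S₀ - ((u ^ 2 - u) / 2 - (Int.fract x ^ 2 - Int.fract x) / 2)) +
              ((u + τ - 1) - τ ^ 2 / 2) := by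
          ring
        rw [e2]
        refine (abs_add_le _ _).trans ?_
        have h7 : |(u + τ - 1) - τ ^ 2 / 2| ≤ τ + τ ^ 2 / 2 := by
          rw [abs_le]
          constructor <;> nlinarith
        push_cast
        nlinarith
  have h := hstep P
  have hf : (⌊x + P * τ⌋ : ℝ) - ⌊x⌋ ≤ P * τ + 1 := by
    have g1 := Int.floor_le (x + P * τ)
    have g2 := Int.lt_floor_add_one x
    linarith
  have hφ : ∀ u : ℝ, 0 ≤ u → u ≤ 1 → -(1 / 8) ≤ (u ^ 2 - u) / 2 ∧ (u ^ 2 - u) / 2 ≤ 0 := by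
    intro u h2 h3
    constructor <;> nlinarith [sq_nonneg (u - 1 / 2)]
  have g1 := hφ _ (Int.fract_nonneg (x + P * τ)) (Int.fract_lt_one _).le
  have g2 := hφ _ (Int.fract_nonneg x) (Int.fract_lt_one x).le
  have h2 : |τ * ∑ p ∈ range P, (Int.fract (x + p * τ) - 1 / 2)| ≤
      1 / 8 + P * τ ^ 2 / 2 + τ * (P * τ + 1) := by
    have h3 := abs_sub_abs_le_abs_sub (τ * ∑ p ∈ range P, (Int.fract (x + p * τ) - 1 / 2))
      ((Int.fract (x + P * τ) ^ 2 - Int.fract (x + P * τ)) / 2 - (Int.fract x ^ 2 - Int.fract x) / 2)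
    have h4 : |(Int.fract (x + P * τ) ^ 2 - Int.fract (x + P * τ)) / 2 -
        (Int.fract x ^ 2 - Int.fract x) / 2| ≤ 1 / 8 := by
      rw [abs_le]
      constructor <;> linarith [g1.1, g1.2, g2.1, g2.2]
    have h5 : τ * ((⌊x + P * τ⌋ : ℝ) - ⌊x⌋) ≤ τ * (P * τ + 1) := mul_le_mul_of_nonneg_left hf h0.le
    linarith
  rw [abs_mul, abs_of_pos h0] at h2
  have h3 : |∑ p ∈ range P, (Int.fract (x + p * τ) - 1 / 2)| ≤
      (1 / 8 + P * τ ^ 2 / 2 + τ * (P * τ + 1)) / τ := by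
    rw [le_div_iff₀ h0]
    linarith
  refine h3.trans (le_of_eq ?_)
  field_simp
  ring

/-- the centred indicator function -/
noncomputable def cf (B a : ℕ) (t : ℝ) : ℝ := ind B a t - 1 / B

lemma cf_eq {B a : ℕ} (hB : 0 < B) (ha : a < B) (t : ℝ) :
    cf B a t = (Int.fract (t - ((a : ℝ) + 1) / B) - 1 / 2) - (Int.fract (t - (a : ℝ) / B) - 1 / 2) := by
  unfold cf
  rw [ind_eq hB ha]
  ring

lemma cf_abs {B : ℕ} (hB : 1 ≤ B) (a : ℕ) (t : ℝ) : |cf B a t| ≤ 1 := by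
  have h0 := ind_nonneg B a t
  have h1 := ind_le_one B a t
  have hB' : (1 : ℝ) ≤ B := by exact_mod_cast hB
  have h2 : 0 ≤ 1 / (B : ℝ) := by positivity
  have h3 : 1 / (B : ℝ) ≤ 1 := by
    rw [div_le_one (by linarith)]
    exact hB'
  unfold cf
  rw [abs_le]
  constructor <;> linarith

lemma cf_sum {B a : ℕ} (hB : 0 < B) (ha : a < B) {τ : ℝ} (h0 : 0 < τ) (h1 : τ ≤ 1) (t : ℝ) (P : ℕ) :
    |∑ p ∈ range P, cf B a (t + p * τ)| ≤ 2 * (1 / (8 * τ) + 3 / 2 * P * τ + 1) := by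
  have e1 : ∑ p ∈ range P, cf B a (t + p * τ) =
      ∑ p ∈ range P, (Int.fract (t - ((a : ℝ) + 1) / B + p * τ) - 1 / 2) -
        ∑ p ∈ range P, (Int.fract (t - (a : ℝ) / B + p * τ) - 1 / 2) := by
    rw [← sum_sub_distrib]
    refine sum_congr rfl fun p _ => ?_
    rw [cf_eq hB ha]
    have e2 : t + p * τ - ((a : ℝ) + 1) / B = t - ((a : ℝ) + 1) / B + p * τ := by ring
    have e3 : t + p * τ - (a : ℝ) / B = t - (a : ℝ) / B + p * τ := by ring
    rw [e2, e3]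
  rw [e1]
  refine (abs_sub _ _).trans ?_
  have := saw_sum h0 h1 (t - ((a : ℝ) + 1) / B) P
  have := saw_sum h0 h1 (t - (a : ℝ) / B) P
  linarith

lemma cf_var {B a M : ℕ} (hB : 0 < B) (ha : a < B) (hM : 0 < M) (t : ℝ) :
    ∑ p ∈ range (M - 1), |cf B a (t + (p + 1 : ℕ) / M) - cf B a (t + p / M)| ≤ 2 := by
  have hMR : (0 : ℝ) < M := by exact_mod_cast hM
  have hτ : (0 : ℝ) ≤ 1 / M := by positivity
  have hτ1 : 1 / (M : ℝ) ≤ 1 := by
    rw [div_le_one hMR]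
    exact_mod_cast hM
  have hc : ∀ (x : ℝ), ∑ p ∈ range (M - 1), ((⌊x + (p : ℝ) / M + 1 / M⌋ : ℝ) - ⌊x + (p : ℝ) / M⌋) ≤ 1 := by
    intro x
    have h1 : ∀ P : ℕ, ∑ p ∈ range P, ((⌊x + (p : ℝ) / M + 1 / M⌋ : ℝ) - ⌊x + (p : ℝ) / M⌋) =
        ⌊x + (P : ℝ) / M⌋ - ⌊x⌋ := by
      intro P
      induction P with
      | zero => simp
      | succ P ih =>
        rw [sum_range_succ, ih]
        have : x + ((P + 1 : ℕ) : ℝ) / M = x + P / M + 1 / M := by
          push_cast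
          ring
        rw [this]
        ring
    rw [h1]
    have h2 : ((M - 1 : ℕ) : ℝ) / M < 1 := by
      rw [div_lt_one hMR]
      exact_mod_cast (by omega : M - 1 < M)
    have h3 : ⌊x + ((M - 1 : ℕ) : ℝ) / M⌋ ≤ ⌊x⌋ + 1 := by
      have g1 := Int.floor_le (x + ((M - 1 : ℕ) : ℝ) / M)
      have g2 := Int.lt_floor_add_one x
      have g3 : ((⌊x + ((M - 1 : ℕ) : ℝ) / M⌋ : ℤ) : ℝ) < ((⌊x⌋ + 2 : ℤ) : ℝ) := by
        push_cast
        linarith
      have g4 : ⌊x + ((M - 1 : ℕ) : ℝ) / M⌋ < ⌊x⌋ + 2 := by exact_mod_cast g3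
      omega
    have h4 : ((⌊x + ((M - 1 : ℕ) : ℝ) / M⌋ : ℤ) : ℝ) ≤ ⌊x⌋ + 1 := by exact_mod_cast h3
    linarith
  have h1 : ∀ p ∈ range (M - 1), |cf B a (t + (p + 1 : ℕ) / M) - cf B a (t + p / M)| ≤
      ((⌊(t - ((a : ℝ) + 1) / B) + (p : ℝ) / M + 1 / M⌋ : ℝ) - ⌊(t - ((a : ℝ) + 1) / B) + (p : ℝ) / M⌋) +
      ((⌊(t - (a : ℝ) / B) + (p : ℝ) / M + 1 / M⌋ : ℝ) - ⌊(t - (a : ℝ) / B) + (p : ℝ) / M⌋) := by
    intro p _
    rw [cf_eq hB ha, cf_eq hB ha]
    have e1 : t + ((p + 1 : ℕ) : ℝ) / M - ((a : ℝ) + 1) / B =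
        (t - ((a : ℝ) + 1) / B) + (p : ℝ) / M + 1 / M := by push_cast; ring
    have e2 : t + ((p + 1 : ℕ) : ℝ) / M - (a : ℝ) / B =
        (t - (a : ℝ) / B) + (p : ℝ) / M + 1 / M := by push_cast; ring
    have e3 : t + (p : ℝ) / M - ((a : ℝ) + 1) / B = (t - ((a : ℝ) + 1) / B) + (p : ℝ) / M := by ring
    have e4 : t + (p : ℝ) / M - (a : ℝ) / B = (t - (a : ℝ) / B) + (p : ℝ) / M := by ring
    rw [e1, e2, e3, e4]
    rcases carry hτ hτ1 ((t - ((a : ℝ) + 1) / B) + (p : ℝ) / M) with ⟨h2, h3⟩ | ⟨h2, h3, -⟩ <;>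
    rcases carry hτ hτ1 ((t - (a : ℝ) / B) + (p : ℝ) / M) with ⟨h4, h5⟩ | ⟨h4, h5, -⟩ <;>
    · rw [h2, h3, h4, h5, abs_le]
      push_cast
      constructor <;> linarith
  refine (sum_le_sum h1).trans ?_
  rw [sum_add_distrib]
  linarith [hc (t - ((a : ℝ) + 1) / B), hc (t - (a : ℝ) / B)]

/-- the correlation -/
lemma corr {b k M B a d : ℕ} (hb : 2 ≤ b) (hM : M + 1 = b ^ k) (hM0 : 0 < M) (hB : 0 < B) (ha : a < B)
    (hdk : d < k) (t t' : ℝ) :
    |∑ p ∈ range M, cf B a (t + p / M) * cf B a (t' + b ^ d * (p / M))| ≤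
      18 * (M / b ^ d + b ^ d) := by
  have hMR : (0 : ℝ) < M := by exact_mod_cast hM0
  have hbd : (0 : ℝ) < (b : ℝ) ^ d := by positivity
  have hbd1 : (1 : ℝ) ≤ (b : ℝ) ^ d := one_le_pow₀ (by exact_mod_cast (by omega : 1 ≤ b))
  have hdM : b ^ d ≤ M := by
    have h1 : b ^ d < b ^ k := Nat.pow_lt_pow_right (by omega) hdk
    omega
  have hdMR : (b : ℝ) ^ d ≤ M := by exact_mod_cast hdM
  set τ : ℝ := (b : ℝ) ^ d / M with hτ
  have hτ0 : 0 < τ := by positivity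
  have hτ1 : τ ≤ 1 := by
    rw [hτ, div_le_one hMR]
    exact hdMR
  set Γ : ℝ := 6 * (M / b ^ d + b ^ d) with hΓ
  have hG : ∀ P : ℕ, P ≤ M → |∑ p ∈ range P, cf B a (t' + b ^ d * (p / M))| ≤ Γ := by
    intro P hP
    have h1 := cf_sum hB ha hτ0 hτ1 t' P
    have e1 : ∑ p ∈ range P, cf B a (t' + b ^ d * (p / M)) = ∑ p ∈ range P, cf B a (t' + p * τ) := by
      refine sum_congr rfl fun p _ => ?_
      congr 2
      rw [hτ]
      ring
    rw [e1]
    refine h1.trans ?_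
    have h2 : 1 / (8 * τ) = M / (8 * b ^ d) := by
      rw [hτ]
      field_simp
    have h3 : (P : ℝ) * τ ≤ b ^ d := by
      rw [hτ, ← mul_div_assoc, div_le_iff₀ hMR, mul_comm]
      have : (P : ℝ) ≤ M := by exact_mod_cast hP
      nlinarith
    have h4 : (M : ℝ) / (8 * b ^ d) ≤ M / b ^ d := by
      apply div_le_div_of_nonneg_left hMR.le hbd
      linarith
    have h5 : (0 : ℝ) ≤ M / b ^ d := by positivity
    rw [h2, hΓ]
    nlinarith
  have hΓ0 : 0 ≤ Γ := by positivity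
  have hparts := Finset.sum_range_by_parts (fun p : ℕ => cf B a (t + p / M))
    (fun p : ℕ => cf B a (t' + b ^ d * (p / M))) M
  simp only [smul_eq_mul] at hparts
  rw [hparts]
  refine (abs_sub _ _).trans ?_
  have h1 : |cf B a (t + ((M - 1 : ℕ) : ℝ) / M) * ∑ p ∈ range M, cf B a (t' + b ^ d * (p / M))| ≤ 1 * Γ := by
    rw [abs_mul]
    exact mul_le_mul (cf_abs hB a _) (hG M le_rfl) (abs_nonneg _) zero_le_one
  have h2 : |∑ i ∈ range (M - 1), (cf B a (t + ((i + 1 : ℕ) : ℝ) / M) - cf B a (t + i / M)) *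
      ∑ p ∈ range (i + 1), cf B a (t' + b ^ d * (p / M))| ≤ 2 * Γ := by
    refine (abs_sum_le_sum_abs _ _).trans ?_
    have h3 : ∀ i ∈ range (M - 1), |(cf B a (t + ((i + 1 : ℕ) : ℝ) / M) - cf B a (t + i / M)) *
      ∑ p ∈ range (i + 1), cf B a (t' + b ^ d * (p / M))| ≤
        |cf B a (t + ((i + 1 : ℕ) : ℝ) / M) - cf B a (t + i / M)| * Γ := by
      intro i hi
      rw [abs_mul]
      have := mem_range.1 hi
      exact mul_le_mul_of_nonneg_left (hG _ (by omega)) (abs_nonneg _)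
    refine (sum_le_sum h3).trans ?_
    rw [← sum_mul]
    exact mul_le_mul_of_nonneg_right (cf_var hB ha hM0 t) hΓ0
  have h4 : 18 * ((M : ℝ) / b ^ d + b ^ d) = 3 * Γ := by rw [hΓ]; ring
  rw [h4]
  linarith

end Pool.Agent.N915.WT
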