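import Pool.Agent.N915.WT.Second

/-! # The second moment of the deviations of the translates, end of the proof -/

set_option autoImplicit false

namespace Pool.Agent.N915.WT

open Finset Filter Topology
open Pool.Agent.H534R3.UDist Pool.Agent.H534R3.Rota
open scoped Real

lemma cf_add_int (B a : ℕ) (t : ℝ) (m : ℤ) : cf B a (t + m) = cf B a t := by
  unfold cf
  rw [ind_add_int]

lemma pow_mod {b k M : ℕ} (hM : M + 1 = b ^ k) (e : ℕ) : ∃ q : ℤ,
    (b : ℝ) ^ e = (b : ℝ) ^ (e % k) + M * q := by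
  have h1 : ((b ^ e : ℕ) : ZMod M) = ((b ^ (e % k) : ℕ) : ZMod M) := by
    have hb : ((b ^ k : ℕ) : ZMod M) = 1 := by
      rw [← hM]
      push_cast
      simp
    push_cast at hb ⊢
    conv_lhs => rw [← Nat.mod_add_div e k]
    rw [pow_add, pow_mul, hb, one_pow, mul_one]
  have h2 : (((b ^ (e % k) : ℕ) : ℤ) : ZMod M) = (((b ^ e : ℕ) : ℤ) : ZMod M) := by
    push_cast at h1 ⊢
    exact h1.symm
  rw [ZMod.intCast_eq_intCast_iff_dvd_sub] at h2
  obtain ⟨q, hq⟩ := h2
  refine ⟨q, ?_⟩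
  have h3 : ((b ^ e : ℕ) : ℤ) = ((b ^ (e % k) : ℕ) : ℤ) + M * q := by linarith
  exact_mod_cast h3

lemma cf_red {b k M : ℕ} (hM0 : 0 < M) (hM : M + 1 = b ^ k) (B a e p : ℕ) (t : ℝ) :
    cf B a (t + b ^ e * (p / M)) = cf B a (t + b ^ (e % k) * (p / M)) := by
  obtain ⟨q, hq⟩ := pow_mod hM e
  have hMR : (M : ℝ) ≠ 0 := by positivity
  have e1 : t + (b : ℝ) ^ e * ((p : ℝ) / M) = t + b ^ (e % k) * (p / M) + ((p * q : ℤ) : ℝ) := by
    rw [hq]
    push_cast
    field_simp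
    ring
  rw [e1, cf_add_int]

lemma sum_rot {k : ℕ} (hk : 1 ≤ k) (g : ℕ → ℝ) (j : ℕ) :
    ∑ i ∈ range k, g ((i + j) % k) = ∑ i ∈ range k, g i := by
  have : NeZero k := ⟨by omega⟩
  have h1 : ∑ i ∈ range k, g ((i + j) % k) =
      ∑ i ∈ range k, (fun x : ZMod k => g (x + j).val) (i : ZMod k) := by
    refine sum_congr rfl fun i _ => ?_
    beta_reduce
    congr 1
    have : ((i : ZMod k) + (j : ZMod k)) = ((i + j : ℕ) : ZMod k) := by push_cast; rfl
    rw [this, ZMod.val_natCast]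
  have h2 : ∑ i ∈ range k, g i = ∑ i ∈ range k, (fun x : ZMod k => g x.val) (i : ZMod k) := by
    refine sum_congr rfl fun i hi => ?_
    beta_reduce
    rw [ZMod.val_natCast, Nat.mod_eq_of_lt (mem_range.1 hi)]
  rw [h1, h2]
  exact (sum_range_zmod k (fun x : ZMod k => g (x + j).val)).trans
    ((Equiv.sum_comp (Equiv.addRight (j : ZMod k)) (fun x : ZMod k => g x.val)).trans
      (sum_range_zmod k (fun x : ZMod k => g x.val)).symm)

/-- the deviation -/
noncomputable def X (b B a M : ℕ) (y : ℝ) (N p : ℕ) : ℝ := Sw b B a (y + p / M) N - N / B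

lemma X_eq (b B a M : ℕ) (y : ℝ) (N p : ℕ) :
    X b B a M y N p = ∑ n ∈ range N, cf B a (b ^ n * (y + p / M)) := by
  unfold X Sw cf
  rw [sum_sub_distrib, sum_const, card_range, nsmul_eq_mul]
  ring

lemma corr2 {b k M B a : ℕ} (hb : 2 ≤ b) (hM : M + 1 = b ^ k) (hM0 : 0 < M) (hB : 0 < B) (ha : a < B)
    (hk : 1 ≤ k) (y : ℝ) (n n' : ℕ) :
    |∑ p ∈ range M, cf B a (b ^ n * (y + p / M)) * cf B a (b ^ n' * (y + p / M))| ≤
      18 * (M / b ^ ((n' + (k - n % k) % k) % k) + b ^ ((n' + (k - n % k) % k) % k)) := by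
  have hMR : (M : ℝ) ≠ 0 := by positivity
  set j := (k - n % k) % k with hj
  have hd := mod_dvd k n hk
  rw [← hj] at hd
  set F : ℕ → ℝ := fun p => cf B a (b ^ n * (y + p / M)) * cf B a (b ^ n' * (y + p / M)) with hF
  have hper : ∀ q, F (q + M) = F q := by
    intro q
    simp only [hF]
    have e1 : ∀ n : ℕ, (b : ℝ) ^ n * (y + ((q + M : ℕ) : ℝ) / M) =
        b ^ n * (y + q / M) + ((b ^ n : ℕ) : ℤ) := by
      intro n
      push_cast
      field_simp
      ring
    rw [e1, e1, cf_add_int, cf_add_int]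
  have hunit : ((b ^ j * b ^ n : ℕ) : ZMod M) = 1 := by
    have hb2 : ((b ^ k : ℕ) : ZMod M) = 1 := by
      rw [← hM]
      push_cast
      simp
    obtain ⟨q, hq⟩ := hd
    rw [← pow_add, Nat.add_comm j n, hq, pow_mul]
    push_cast at hb2 ⊢
    rw [hb2, one_pow]
  have h1 := sum_mul_unit hM0 F hper (c := b ^ j) (c' := b ^ n) hunit
  rw [← h1]
  have h2 : ∀ p ∈ range M, F (b ^ j * p) = cf B a (b ^ n * y + p / M) *
      cf B a (b ^ n' * y + b ^ ((n' + j) % k) * (p / M)) := by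
    intro p _
    simp only [hF]
    have e1 : ∀ n : ℕ, (b : ℝ) ^ n * (y + ((b ^ j * p : ℕ) : ℝ) / M) =
        b ^ n * y + b ^ (n + j) * (p / M) := by
      intro n
      push_cast
      rw [pow_add]
      ring
    rw [e1, e1, cf_red hM0 hM B a (n + j) p, cf_red hM0 hM B a (n' + j) p]
    have e2 : (n + j) % k = 0 := Nat.mod_eq_zero_of_dvd hd
    rw [e2, pow_zero, one_mul]
  rw [sum_congr rfl h2]
  exact corr hb hM hM0 hB ha (Nat.mod_lt _ (by omega)) _ _

lemma second {b k M B a Q : ℕ} (hb : 2 ≤ b) (hM : M + 1 = b ^ k) (hM0 : 0 < M) (hB : 0 < B)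
    (ha : a < B) (hk : 1 ≤ k) (y : ℝ) :
    ∑ p ∈ range M, X b B a M y (k * Q) p ^ 2 ≤ 54 * M * (k * Q) * Q := by
  have hMR : (0 : ℝ) < M := by exact_mod_cast hM0
  have e1 : ∑ p ∈ range M, X b B a M y (k * Q) p ^ 2 =
      ∑ n ∈ range (k * Q), ∑ n' ∈ range (k * Q),
        ∑ p ∈ range M, cf B a (b ^ n * (y + p / M)) * cf B a (b ^ n' * (y + p / M)) := by
    have e2 : ∀ p ∈ range M, X b B a M y (k * Q) p ^ 2 =
        ∑ n ∈ range (k * Q), ∑ n' ∈ range (k * Q),
          cf B a (b ^ n * (y + p / M)) * cf B a (b ^ n' * (y + p / M)) := by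
      intro p _
      rw [X_eq, sq, sum_mul_sum]
    rw [sum_congr rfl e2, sum_comm]
    refine sum_congr rfl fun n _ => ?_
    rw [sum_comm]
  rw [e1]
  set h : ℕ → ℝ := fun d => 18 * (M / b ^ d + b ^ d) with hh
  have h1 : ∀ n ∈ range (k * Q), ∑ n' ∈ range (k * Q),
        ∑ p ∈ range M, cf B a (b ^ n * (y + p / M)) * cf B a (b ^ n' * (y + p / M)) ≤
        Q * ∑ d ∈ range k, h d := by
    intro n _
    have h2 : ∀ n' ∈ range (k * Q),
        ∑ p ∈ range M, cf B a (b ^ n * (y + p / M)) * cf B a (b ^ n' * (y + p / M)) ≤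
        h ((n' + (k - n % k) % k) % k) := fun n' _ =>
      (le_abs_self _).trans (corr2 hb hM hM0 hB ha hk y n n')
    refine (sum_le_sum h2).trans (le_of_eq ?_)
    rw [sum_range_kQ]
    have h3 : ∀ q ∈ range Q, ∑ i ∈ range k, h ((k * q + i + (k - n % k) % k) % k) =
        ∑ d ∈ range k, h d := by
      intro q _
      rw [← sum_rot hk h ((k - n % k) % k)]
      refine sum_congr rfl fun i _ => ?_
      congr 1
      rw [Nat.add_assoc, Nat.mul_add_mod]
    rw [sum_congr rfl h3, sum_const, card_range, nsmul_eq_mul]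
  refine (sum_le_sum h1).trans ?_
  rw [sum_const, card_range, nsmul_eq_mul]
  have hbR : (2 : ℝ) ≤ b := by exact_mod_cast hb
  -- the two geometric sums
  have g1 : ∀ k : ℕ, ∑ d ∈ range k, (1 : ℝ) / b ^ d ≤ 2 - 2 / b ^ k := by
    intro k
    induction k with
    | zero => simp
    | succ k ih =>
      rw [sum_range_succ]
      have hbk : (0 : ℝ) < (b : ℝ) ^ k := by positivity
      have h5 : (2 : ℝ) / b ^ (k + 1) ≤ 1 / b ^ k := by
        rw [pow_succ, div_le_div_iff₀ (by positivity) hbk]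
        nlinarith
      have h6 : (2 : ℝ) / b ^ k = 1 / b ^ k + 1 / b ^ k := by ring
      linarith
  have g2 : ∀ k : ℕ, ∑ d ∈ range k, (b : ℝ) ^ d ≤ b ^ k - 1 := by
    intro k
    induction k with
    | zero => simp
    | succ k ih =>
      rw [sum_range_succ, pow_succ]
      have hbk : (0 : ℝ) < (b : ℝ) ^ k := by positivity
      nlinarith
  have hsum : ∑ d ∈ range k, h d ≤ 54 * M := by
    have e3 : ∑ d ∈ range k, h d = 18 * (M * ∑ d ∈ range k, (1 : ℝ) / b ^ d + ∑ d ∈ range k, (b : ℝ) ^ d) := by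
      simp only [hh]
      rw [mul_sum (range k) _ (M : ℝ), ← sum_add_distrib, mul_sum]
      refine sum_congr rfl fun d _ => ?_
      ring
    rw [e3]
    have h5 := g1 k
    have h6 := g2 k
    have h7 : (b : ℝ) ^ k = M + 1 := by exact_mod_cast hM.symm
    have h8 : (0 : ℝ) ≤ 2 / b ^ k := by positivity
    rw [h7] at h6
    nlinarith
  have hQ : (0 : ℝ) ≤ Q := Nat.cast_nonneg _
  calc ((k * Q : ℕ) : ℝ) * (Q * ∑ d ∈ range k, h d) ≤ ((k * Q : ℕ) : ℝ) * (Q * (54 * M)) := by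
        gcongr
    _ = _ := by push_cast; ring

end Pool.Agent.N915.WT
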